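import Pool.Agent.NH23.PR.Stm

/-! The minimal base of an integer (PRR-4). -/

set_option autoImplicit false

namespace Pool.NH23.PR

private lemma base_ex (n : ℕ) (h : 2 ≤ n) : ∃ g : ℕ, 2 ≤ g ∧ ∃ k, 1 ≤ k ∧ g ^ k = n :=
  ⟨n, h, 1, le_rfl, pow_one n⟩

private lemma base_min (n : ℕ) (hn : 2 ≤ n) : ∃ g k : ℕ, 2 ≤ g ∧ 1 ≤ k ∧ g ^ k = n ∧
    ∀ c l : ℕ, 2 ≤ c → 1 ≤ l → c ^ l = n → g ≤ c := by
  classical
  obtain ⟨h2, k, hk, e⟩ := Nat.find_spec (base_ex n hn)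
  exact ⟨Nat.find (base_ex n hn), k, h2, hk, e,
    fun c l hc hl h => Nat.find_min' (base_ex n hn) ⟨hc, l, hl, h⟩⟩

private lemma base_eq (n G k c m : ℕ) (hG : 2 ≤ G) (hk : 1 ≤ k) (e : G ^ k = n)
    (hmin : ∀ c l : ℕ, 2 ≤ c → 1 ≤ l → c ^ l = n → G ≤ c) (hm : m ≠ 0) (h : G = c ^ m) : G = c := by
  have hc : 2 ≤ c := by
    by_contra hc
    have : c = 0 ∨ c = 1 := by omega
    rcases this with rfl | rfl
    · rw [zero_pow hm] at h; omega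
    · rw [one_pow] at h; omega
  refine le_antisymm (hmin c (m * k) hc (Nat.mul_pos (Nat.pos_of_ne_zero hm) hk) ?_) ?_
  · rw [pow_mul, ← h, e]
  · rw [h]; exact Nat.le_self_pow hm c

/-- (PRR-4) the minimal base of an integer -/
theorem base : S_BASE := by
  classical
  have hex : ∀ n : ℕ, ∃ g k : ℕ, 2 ≤ n → (2 ≤ g ∧ 1 ≤ k ∧ g ^ k = n ∧
      ∀ c l : ℕ, 2 ≤ c → 1 ≤ l → c ^ l = n → g ≤ c) := by
    intro n
    by_cases hn : 2 ≤ n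
    · obtain ⟨g, k, h⟩ := base_min n hn
      exact ⟨g, k, fun _ => h⟩
    · exact ⟨0, 0, fun h => absurd h hn⟩
  choose G T hGT using hex
  refine ⟨G, T, fun n hn => ⟨(hGT n hn).1, (hGT n hn).2.1, (hGT n hn).2.2.1⟩, ?_⟩
  rintro a b ha hb ⟨i, j, hi, hj, e⟩
  obtain ⟨ga, ka, ea, ma⟩ := hGT a ha
  obtain ⟨gb, kb, eb, mb⟩ := hGT b hb
  have hm : 0 < T a * i := Nat.mul_pos ka hi
  have hn : 0 < T b * j := Nat.mul_pos kb hj
  have e' : G a ^ (T a * i) = G b ^ (T b * j) := by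
    rw [pow_mul, pow_mul, ea, eb, e]
  obtain ⟨c, h1, h2⟩ := Nat.exists_eq_pow_of_pow_eq_pow (Or.inl hm.ne') e'
  have d1 : T b * j / Nat.gcd (T a * i) (T b * j) ≠ 0 :=
    (Nat.div_pos (Nat.gcd_le_right _ hn) (Nat.gcd_pos_of_pos_left _ hm)).ne'
  have d2 : T a * i / Nat.gcd (T a * i) (T b * j) ≠ 0 :=
    (Nat.div_pos (Nat.gcd_le_left _ hm) (Nat.gcd_pos_of_pos_left _ hm)).ne'
  rw [base_eq a (G a) (T a) c _ ga ka ea ma d1 h1, base_eq b (G b) (T b) c _ gb kb eb mb d2 h2]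

end Pool.NH23.PR
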