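import Pool.Agent.NH23.PR.Stm

/-!
Project PRR, PRR-5 (helper17): prime powers.
-/

set_option autoImplicit false

namespace Pool.NH23.PR

theorem dep : S_DEP := by
  intro a b ha hb h1 h2 h3
  have hpa : IsPrimePow a := by
    rcases h1 with h | h
    · exact h
    · exact h2.2 h
  obtain ⟨p, k, hp, hk, hpk⟩ := (isPrimePow_nat_iff _).1 (h3.2 hpa)
  obtain ⟨i, -, hi⟩ := (Nat.dvd_prime_pow hp).1 (by rw [hpk]; exact dvd_mul_right a b : a ∣ p ^ k)
  obtain ⟨j, -, hj⟩ := (Nat.dvd_prime_pow hp).1 (by rw [hpk]; exact dvd_mul_left b a : b ∣ p ^ k)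
  have hi0 : 0 < i := Nat.pos_of_ne_zero (by rintro rfl; rw [pow_zero] at hi; omega)
  have hj0 : 0 < j := Nat.pos_of_ne_zero (by rintro rfl; rw [pow_zero] at hj; omega)
  refine ⟨j, i, hj0, hi0, ?_⟩
  rw [hi, hj, ← pow_mul, ← pow_mul, mul_comm]

end Pool.NH23.PR
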