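import Pool.Agent.NH23.PR.Sel

set_option autoImplicit false

namespace Pool.NH23.PR

/-- the leading term of `m` in base `g` -/
def lead (g m : ℕ) : ℕ := m / g ^ Nat.log g m * g ^ Nat.log g m

/-- sum over the consecutive nonzero digits of `n` (positions `e < e'`, lower part `m` with
leading term `lead m`) of `e' / lead m` -/
def gapS (g : ℕ) (n : ℕ) : ℕ :=
  if h : n % g ^ Nat.log g n = 0 then 0
  else gapS g (n % g ^ Nat.log g n) + Nat.log g n / lead g (n % g ^ Nat.log g n)
termination_by n
decreasing_by
  rcases Nat.eq_zero_or_pos n with h0 | h0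
  · subst h0; simp at h
  · rcases Nat.lt_or_ge g 1 with hg | hg
    · have : g = 0 := by omega
      subst this
      simp at h
      omega
    · exact lt_of_lt_of_le (Nat.mod_lt _ (by positivity)) (Nat.pow_log_le_self g (by omega))

theorem gapS_axis {g d s : ℕ} (hg : 2 ≤ g) (hd : 1 ≤ d) (hd' : d < g) :
    gapS g (d * g ^ s) = 0 := by
  have hpos : 0 < g ^ s := by positivity
  have h1 := log_dec (m := 0) hg hd hd' hpos
  have h2 := mod_dec (g := g) (d := d) (m := 0) hpos
  rw [add_zero] at h1 h2
  rw [gapS, dif_pos (by rw [h1, h2])]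

theorem gapS_dec {g d s m : ℕ} (hg : 2 ≤ g) (hd : 1 ≤ d) (hd' : d < g) (hm1 : 1 ≤ m)
    (hm : m < g ^ s) : gapS g (d * g ^ s + m) = gapS g m + s / lead g m := by
  have h1 := log_dec hg hd hd' hm
  have h2 := mod_dec (g := g) (d := d) hm
  rw [gapS, dif_neg (by rw [h1, h2]; omega)]
  rw [h1, h2]

theorem lead_dec {g d s m : ℕ} (hg : 2 ≤ g) (hd : 1 ≤ d) (hd' : d < g) (hm : m < g ^ s) :
    lead g (d * g ^ s + m) = d * g ^ s := by
  unfold lead
  rw [log_dec hg hd hd' hm, div_dec hg hm]

theorem lead_bounds {g m : ℕ} (hg : 2 ≤ g) (hm : 1 ≤ m) :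
    0 < lead g m ∧ lead g m ≤ m ∧ m < 2 * lead g m := by
  obtain ⟨d, s, r, hd, hd', hr, rfl⟩ := exists_dec hg hm
  rw [lead_dec hg hd hd' hr]
  have : 0 < g ^ s := by positivity
  refine ⟨by positivity, by omega, by nlinarith⟩

/-- additivity over a gap -/
theorem gapS_add {g y : ℕ} (hg : 2 ≤ g) (hy : 1 ≤ y) : ∀ z : ℕ, 1 ≤ z → y < g ^ v g z →
    gapS g (z + y) = gapS g z + gapS g y + v g z / lead g y := by
  intro z
  induction z using Nat.strong_induction_on with
  | _ z ih =>
    intro hz hyz
    obtain ⟨d, s, m, hd, hd', hm, rfl⟩ := exists_dec hg hz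
    have hps : 1 ≤ g ^ s := Nat.one_le_pow _ _ (by omega)
    rcases Nat.eq_zero_or_pos m with h0 | h0
    · subst h0
      rw [add_zero] at hyz ⊢
      rw [v_axis hg hd hd'] at hyz ⊢
      rw [gapS_dec hg hd hd' hy hyz, gapS_axis hg hd hd', zero_add]
    · have hmlt : m < d * g ^ s + m := by nlinarith
      have hvm := v_dec (d := d) hg h0 hm
      rw [hvm] at hyz ⊢
      have hvl := v_le_log hg h0
      have hlogs : Nat.log g m < s := Nat.log_lt_of_lt_pow (by omega) hm
      have hdv := pow_v_dvd hg h0
      have hm' : m + y < g ^ s := add_lt_of_dvd hdv (pow_dvd_pow g (by omega)) hm hyz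
      rw [add_assoc, gapS_dec hg hd hd' (by omega) hm', gapS_dec hg hd hd' h0 hm, ih m hmlt h0 hyz]
      -- leading terms agree
      have hl : lead g (m + y) = lead g m := by
        obtain ⟨d', s', m', hd1, hd1', hm1', rfl⟩ := exists_dec hg h0
        rw [lead_dec hg hd1 hd1' hm1', add_assoc]
        have : m' + y < g ^ s' := by
          rcases Nat.eq_zero_or_pos m' with h1 | h1
          · subst h1
            rw [add_zero, v_axis hg hd1 hd1'] at hyz
            omega
          · rw [v_dec hg h1 hm1'] at hyz
            have h2 := v_le_log hg h1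
            have h3 : Nat.log g m' < s' := Nat.log_lt_of_lt_pow (by omega) hm1'
            exact add_lt_of_dvd (pow_v_dvd hg h1) (pow_dvd_pow g (by omega)) hm1' hyz
        rw [lead_dec hg hd1 hd1' this]
      rw [hl]
      ring

theorem v_mul_pow {g x y : ℕ} (hg : g.Prime) (hx : 1 ≤ x) (b : ℕ) (hb : b ≠ 0)
    (h : b.factorization g = y) : v g (b * x) = v g x + y := by
  have hf : ∀ t : ℕ, 1 ≤ t → v g t = t.factorization g := by
    intro t ht
    apply v_eq_of hg.two_le ht (Nat.ordProj_dvd t g)
    exact Nat.pow_succ_factorization_not_dvd (by omega) hg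
  rw [hf _ hx, hf _ (by have := Nat.pos_of_ne_zero hb; nlinarith),
    Nat.factorization_mul hb (by omega), Finsupp.add_apply, h, add_comm]

/-- the least prime divisor `p` of `a` and `b` is the same, and the exponent of `p` in `a` is
divisible by a power of `p` exceeding the exponent of `p` in `b` -/
theorem kills_gap : Kills (fun a b => a.minFac = b.minFac ∧
    b.factorization b.minFac < b.minFac ^ (a.factorization b.minFac).factorization b.minFac) := by
  refine kills_of (fun n => (⟨gapS n.minFac (n.factorization n.minFac) % 3,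
    Nat.mod_lt _ (by norm_num)⟩ : Fin 3)) ?_
  rintro a b ha hb h1 h2 h3 h4 ⟨hm, hlt⟩
  have ha0 : a ≠ 0 := by omega
  have hb0 : b ≠ 0 := by omega
  have hp : b.minFac.Prime := Nat.minFac_prime (by omega)
  have hpa : b.minFac ∣ a := by rw [← hm]; exact Nat.minFac_dvd a
  have hmin : ∀ n : ℕ, 2 ≤ n → b.minFac ∣ n → (∀ q : ℕ, q.Prime → q ∣ n → q ∣ a ∨ q ∣ b) →
      n.minFac = b.minFac := by
    intro n hn h5 h6
    apply le_antisymm (Nat.minFac_le_of_dvd hp.two_le h5)
    have hq := Nat.minFac_prime (by omega : n ≠ 1)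
    rcases h6 _ hq (Nat.minFac_dvd n) with h7 | h7
    · rw [← hm]; exact Nat.minFac_le_of_dvd hq.two_le h7
    · exact Nat.minFac_le_of_dvd hq.two_le h7
  have m1 : (a * b).minFac = b.minFac :=
    hmin _ (by nlinarith) (Dvd.dvd.mul_left (Nat.minFac_dvd b) a) (fun q hq h => (hq.dvd_mul).1 h)
  have m2 : (a ^ b).minFac = b.minFac :=
    hmin _ (le_trans ha (Nat.le_self_pow hb0 a)) (Dvd.dvd.pow hpa hb0)
      (fun q hq h => Or.inl (hq.dvd_of_dvd_pow h))
  have m3 : (a ^ b * b).minFac = b.minFac :=
    hmin _ (by nlinarith [le_trans ha (Nat.le_self_pow hb0 a)])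
      (Dvd.dvd.mul_left (Nat.minFac_dvd b) _) (fun q hq h => by
        rcases (hq.dvd_mul).1 h with h | h
        · exact Or.inl (hq.dvd_of_dvd_pow h)
        · exact Or.inr h)
  simp only [Fin.mk.injEq, hm, m1, m2, m3] at h1 h2 h3 h4
  set p := b.minFac with hpdef
  have hy : 1 ≤ b.factorization p := hp.factorization_pos_of_dvd hb0 (Nat.minFac_dvd b)
  have hx : 1 ≤ a.factorization p := hp.factorization_pos_of_dvd ha0 hpa
  have fab : (a * b).factorization p = a.factorization p + b.factorization p := by
    rw [Nat.factorization_mul ha0 hb0, Finsupp.add_apply]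
  have fp : (a ^ b).factorization p = b * a.factorization p := by
    rw [Nat.factorization_pow]; simp
  have fq : (a ^ b * b).factorization p = b * a.factorization p + b.factorization p := by
    rw [Nat.factorization_mul (by positivity) hb0, Finsupp.add_apply, fp]
  rw [fab] at h2
  rw [fp] at h3
  rw [fq] at h4
  have hvx : v p (a.factorization p) = (a.factorization p).factorization p := by
    have := v_mul_pow hp (le_refl 1) (a.factorization p) (by omega) rfl
    rw [mul_one] at this
    rw [this]
    have : v p 1 = 0 := v_eq_of hp.two_le le_rfl (by simp) (by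
      intro h
      have := Nat.le_of_dvd one_pos h
      rw [zero_add, pow_one] at this
      have := hp.two_le
      omega)
    omega
  rw [← hvx] at hlt
  have hvb : v p (b * a.factorization p) = v p (a.factorization p) + b.factorization p :=
    v_mul_pow hp hx b hb0 rfl
  have hlt2 : b.factorization p < p ^ v p (b * a.factorization p) := by
    rw [hvb]
    exact lt_of_lt_of_le hlt (Nat.pow_le_pow_right (by have := hp.two_le; omega) (by omega))
  have s1 := gapS_add hp.two_le hy _ hx hlt
  have s2 := gapS_add hp.two_le hy _ (by have : 0 < b * a.factorization p := by positivity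
                                         omega : 1 ≤ b * a.factorization p) hlt2
  rw [hvb] at s2
  obtain ⟨l1, l2, l3⟩ := lead_bounds hp.two_le hy
  generalize lead p (b.factorization p) = l at s1 s2 l1 l2 l3
  generalize v p (a.factorization p) = w at s1 s2
  rw [s1] at h2
  rw [s2] at h4
  have e1 : w / l + 1 ≤ (w + b.factorization p) / l := by
    rw [← Nat.add_div_right _ l1]
    exact Nat.div_le_div_right (by omega)
  have e2 : (w + b.factorization p) / l ≤ w / l + 2 := by
    have : (w + 2 * l) / l = w / l + 2 := by rw [Nat.add_mul_div_right _ _ l1]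
    rw [← this]
    exact Nat.div_le_div_right (by omega)
  omega

end Pool.NH23.PR
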