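import Mathlib

/-!
Project PRR (helper23): MP_1b773e_co, the pattern `a, b, ab, a^b, a^b b` has no monochromatic
instance with `a, b` multiplicatively dependent.
-/

set_option autoImplicit false

namespace Pool.NH23.PR

/-- the `g`-adic valuation: the largest `k` with `g^k ∣ t` (for `g ≥ 2`, `t ≥ 1`) -/
noncomputable def v (g t : ℕ) : ℕ := multiplicity g t

/-- iterated logarithm in base `g` -/
def lam (g : ℕ) : ℕ → ℕ
  | t => if h : g < 2 ∨ t < g then 0 else 1 + lam g (Nat.log g t)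
termination_by t => t
decreasing_by
  push Not at h
  exact Nat.log_lt_self g (by omega)

/-- tower function with top `b` -/
def tw : ℕ → ℕ → ℕ
  | 0, b => b
  | h + 1, b => 2 ^ tw h b

/-- JOB PRR-1 (STAR).  `λ_g (g^y x)` is `λ_g y + 1` or `λ_g y + 2` when `x ≤ y`.
Proof.  `lam g` is monotone for `g ≥ 2` (strong induction).  `log_g (g^y x) = y + log_g x`
(`Nat.log_mul_base`, iterated, or directly from `Nat.log_eq_iff`), and
`y ≤ y + log_g x ≤ y + x`-ish `≤ g^y` (as `log_g x ≤ log_g y` and `y + log_g y ≤ g^y`: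
`g^y = g^(y-1) g ≥ ...`; e.g. `log_g y < y`, if `y = 1` then `x = 1`; `y + log_2 y ≤ 2^y`).
So `λ(g^y x) = 1 + λ(y + log x)` lies between `1 + λ(y)` and `1 + λ(g^y) = 2 + λ(y)`. -/
def S_STAR : Prop := ∀ g x y : ℕ, 2 ≤ g → 1 ≤ x → x ≤ y →
  lam g (g ^ y * x) = lam g y + 1 ∨ lam g (g ^ y * x) = lam g y + 2

/-- JOB PRR-2 (TOWER).  If `a ≤ tw h b` then `λ_2(b) + 1 ≤ λ_2(a^b) ≤ λ_2(b) + h + 2`.
Proof.  `lam 2` is monotone and `lam 2 (2^n) = 1 + lam 2 n` for `n ≥ 1`, so the lower bound follows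
from `a^b ≥ 2^b`.  Upper bound: by induction on `j`, `n < tw j (b+1)` implies `λ(n) ≤ λ(b) + j`
(`j = 0`: monotone; step: `n < 2^T` gives `log_2 n < T`).  And `a^b < tw (h+2) (b+1)`:
for `h = 0`, `a^b ≤ b^b < 2^(2^(b+1))`; for `h ≥ 1` put `T = tw (h-1) b ≥ b`; then
`a^b ≤ 2^(T b) ≤ 2^(T^2) < 2^(2^(2T)) ≤ tw (h+2) (b+1)` because
`tw h (b+1) = 2^(tw (h-1) (b+1)) ≥ 2^(T+1) ≥ 2T` (`tw` is strictly monotone in its top). -/
def S_TOWER : Prop := ∀ h a b : ℕ, 2 ≤ a → 2 ≤ b → a ≤ tw h b →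
  lam 2 b + 1 ≤ lam 2 (a ^ b) ∧ lam 2 (a ^ b) ≤ lam 2 b + h + 2

/-- JOB PRR-3 (KAP).  A colouring of the numbers with 3 colours which separates `x + y` from
`g^y x + y` when `v(x) > v(y)` and `log_g (x+y) = log_g x`.
Proof.  For `t ≥ 1` put `v = v g t`, `d = (t / g^v) % g` (nonzero) and `δ = (log_g t / g^v) % g`.
Colour `kap t = κ(δ, d)`, where with `d' = min d (g - d)`: `κ = 2` if `δ + d' ≥ g`, else
`κ = (δ / d') % 2`.  Then `κ(δ, d) ≠ κ((δ + d) % g, d)` for `1 ≤ d < g`, `δ < g`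
(if `d ≤ g/2`: for `δ + d ≥ g` the first is 2 and the second is `(δ+d-g)/d = 0`; else the second is
either 2 or has the other parity.  If `d > g/2` then `(δ + d) % g = δ - d'` mod `g`: the same pair
read backwards).  If `v(x) > v(y) = v` then `v(x+y) = v(g^y x + y) = v`, both have the same `d`
(`x / g^v` is divisible by `g`), and `log_g(g^y x + y) = y + log_g x` (because `y < g^y`), while
`(y + L)/g^v = y/g^v + L/g^v`, so that `δ` moves by `d`. -/
def S_KAP : Prop := ∃ kap : ℕ → ℕ → ℕ, (∀ g t, kap g t < 3) ∧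
  ∀ g x y : ℕ, 2 ≤ g → 1 ≤ x → 1 ≤ y → v g y < v g x → Nat.log g (x + y) = Nat.log g x →
    kap g (x + y) ≠ kap g (g ^ y * x + y)

/-- JOB PRR-4 (BASE).  The minimal base of an integer.
Proof.  `G n` = the least `g ≥ 2` such that `n = g^k` for some `k ≥ 1`; `T n` = that `k`.  If
`a^i = b^j` then with `G = G a`, `H = G b` we get `G^u = H^w` (`u = T a * i`, `w = T b * j`); dividing the
exponents by their gcd (`Nat.pow_left_injective`) they are coprime, so `G = C^w`, `H = C^u` for a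
common `C` (search Mathlib for `exists_eq_pow_of_exponent_coprime_of_pow_eq`, or use
factorizations), and minimality of `G` gives `G = C`, of `H` gives `H = C`. -/
def S_BASE : Prop := ∃ G T : ℕ → ℕ, (∀ n, 2 ≤ n → 2 ≤ G n ∧ 1 ≤ T n ∧ G n ^ T n = n) ∧
  ∀ a b : ℕ, 2 ≤ a → 2 ≤ b → (∃ i j : ℕ, 0 < i ∧ 0 < j ∧ a ^ i = b ^ j) → G a = G b

/-- JOB PRR-5 (DEP).  A prime power times another number.
Proof.  The number of prime divisors.  `IsPrimePow n`: `n` is a power of a prime.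
If `a` (or `b`) is a prime power and `a`, `b`, `ab` are all prime powers or all not, then `a = p^i`,
`b = q^j`, and `ab` prime power forces `p = q`; so `a^j = b^i`. -/
def S_DEP : Prop := ∀ a b : ℕ, 2 ≤ a → 2 ≤ b → (IsPrimePow a ∨ IsPrimePow b) →
  (IsPrimePow a ↔ IsPrimePow b) → (IsPrimePow (a * b) ↔ IsPrimePow a) →
  ∃ i j : ℕ, 0 < i ∧ 0 < j ∧ a ^ i = b ^ j

end Pool.NH23.PR
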