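import Mathlib
import Pool.Agent.NH23.PR.Stm

/-!
Job PRR-3 (KAP): a 3-colouring by the digits.
-/

set_option autoImplicit false

namespace Pool.NH23.PR

/-- the colour of a pair of digits -/
def kapC (g δ d : ℕ) : ℕ :=
  if g ≤ δ + min d (g - d) then 2 else (δ / min d (g - d)) % 2

theorem kapC_lt (g δ d : ℕ) : kapC g δ d < 3 := by
  unfold kapC
  split_ifs
  · norm_num
  · exact lt_trans (Nat.mod_lt _ (by norm_num)) (by norm_num)

/-- the step of the colour -/
def kapB (g δ d : ℕ) : ℕ := if g ≤ δ + d then 2 else (δ / d) % 2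

theorem kapB_ne (g δ d : ℕ) (hd : 1 ≤ d) (h2 : 2 * d ≤ g) (hδ : δ < g) :
    kapB g δ d ≠ kapB g ((δ + d) % g) d := by
  unfold kapB
  by_cases h : g ≤ δ + d
  · have h1 : (δ + d) % g = δ + d - g := by
      rw [Nat.mod_eq_sub_mod h, Nat.mod_eq_of_lt (by omega)]
    rw [if_pos h, h1, if_neg (by omega)]
    have := Nat.mod_lt ((δ + d - g) / d) (by norm_num : 0 < 2)
    omega
  · have h1 : (δ + d) % g = δ + d := Nat.mod_eq_of_lt (by omega)
    rw [if_neg h, h1]
    split_ifs with h3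
    · have := Nat.mod_lt (δ / d) (by norm_num : 0 < 2)
      omega
    · rw [Nat.add_div_right _ hd]
      omega

theorem kapC_ne (g δ d : ℕ) (hd : 1 ≤ d) (hdg : d < g) (hδ : δ < g) :
    kapC g δ d ≠ kapC g ((δ + d) % g) d := by
  have hlt : (δ + d) % g < g := Nat.mod_lt _ (by omega)
  by_cases h : 2 * d ≤ g
  · have h1 : min d (g - d) = d := min_eq_left (by omega)
    have := kapB_ne g δ d hd h hδ
    unfold kapB at this
    unfold kapC
    rw [h1]
    exact this
  · have h1 : min d (g - d) = g - d := min_eq_right (by omega)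
    have h2 := kapB_ne g ((δ + d) % g) (g - d) (by omega) (by omega) hlt
    have h3 : ((δ + d) % g + (g - d)) % g = δ := by
      rw [Nat.mod_add_mod, show δ + d + (g - d) = δ + g by omega, Nat.add_mod_right,
        Nat.mod_eq_of_lt hδ]
    rw [h3] at h2
    unfold kapB at h2
    unfold kapC
    rw [h1]
    exact h2.symm

/-- the colouring -/
noncomputable def kapF (g t : ℕ) : ℕ :=
  kapC g ((Nat.log g t / g ^ v g t) % g) ((t / g ^ v g t) % g)

theorem kap_v (g e t : ℕ) (hg : 2 ≤ g) (ht : ¬ g ∣ t) : v g (g ^ e * t) = e := by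
  unfold v
  apply multiplicity_eq_of_dvd_of_not_dvd (Dvd.intro _ rfl)
  rintro ⟨c, hc⟩
  apply ht
  refine ⟨c, ?_⟩
  have h1 : g ^ e * t = g ^ e * (g * c) := by rw [hc]; ring
  exact Nat.eq_of_mul_eq_mul_left (by positivity) h1

theorem kap_log (g x y : ℕ) (hg : 2 ≤ g) (hx : 1 ≤ x) :
    Nat.log g (g ^ y * x + y) = y + Nat.log g x := by
  have hy : y < g ^ y := Nat.lt_pow_self (by omega)
  have h1 := Nat.pow_log_le_self g (show x ≠ 0 by omega)
  have h2 := Nat.lt_pow_succ_log_self (show 1 < g by omega) x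
  apply Nat.log_eq_of_pow_le_of_lt_pow
  · rw [pow_add]
    have := Nat.mul_le_mul_left (g ^ y) h1
    omega
  · have h3 : g ^ y * (x + 1) ≤ g ^ y * g ^ (Nat.log g x + 1) :=
      Nat.mul_le_mul_left (g ^ y) (Nat.succ_le_of_lt h2)
    rw [add_assoc, pow_add g y (Nat.log g x + 1)]
    have h4 : g ^ y * (x + 1) = g ^ y * x + g ^ y := by ring
    omega

theorem kap_fin (g t : ℕ) (hg : 2 ≤ g) (ht : 1 ≤ t) : FiniteMultiplicity g t :=
  Nat.finiteMultiplicity_iff.mpr ⟨by omega, by omega⟩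

theorem kap_main : S_KAP := by
  refine ⟨kapF, fun g t => kapC_lt _ _ _, fun g x y hg hx hy hv hL => ?_⟩
  obtain ⟨y', hy'⟩ := pow_multiplicity_dvd g y
  have hyd : ¬ g ∣ y' := by
    rintro ⟨c, hc⟩
    apply (kap_fin g y hg hy).not_pow_dvd_of_multiplicity_lt (Nat.lt_succ_self _)
    refine ⟨c, ?_⟩
    conv_lhs => rw [hy', hc]
    rw [Nat.succ_eq_add_one, pow_succ]
    ring
  obtain ⟨x', hx'⟩ : g ^ (v g y + 1) ∣ x :=
    (pow_dvd_pow g (Nat.succ_le_of_lt hv)).trans (pow_multiplicity_dvd g x)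
  change y = g ^ v g y * y' at hy'
  set e := v g y with he
  have hpos : 0 < g ^ e := by positivity
  have hA : x + y = g ^ e * (g * x' + y') := by
    rw [hx']
    conv_lhs => rw [hy']
    rw [pow_succ]
    ring
  have hB : g ^ y * x + y = g ^ e * (g * (g ^ y * x') + y') := by
    have : g ^ y * x + y = g ^ y * x + g ^ e * y' := by rw [← hy']
    rw [this]
    conv_lhs => rw [hx']
    rw [pow_succ]
    ring
  have hdA : ¬ g ∣ g * x' + y' := fun h => hyd ((Nat.dvd_add_right (Dvd.intro _ rfl)).mp h)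
  have hdB : ¬ g ∣ g * (g ^ y * x') + y' :=
    fun h => hyd ((Nat.dvd_add_right (Dvd.intro _ rfl)).mp h)
  have hvA : v g (x + y) = e := by rw [hA]; exact kap_v g e _ hg hdA
  have hvB : v g (g ^ y * x + y) = e := by rw [hB]; exact kap_v g e _ hg hdB
  have hqA : (x + y) / g ^ e % g = y' % g := by
    rw [hA, Nat.mul_div_cancel_left _ hpos, Nat.mul_add_mod]
  have hqB : (g ^ y * x + y) / g ^ e % g = y' % g := by
    rw [hB, Nat.mul_div_cancel_left _ hpos, Nat.mul_add_mod]
  have hLB : (Nat.log g (g ^ y * x + y)) / g ^ e % g =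
      ((Nat.log g x / g ^ e % g) + y' % g) % g := by
    rw [kap_log g x y hg hx]
    have : y + Nat.log g x = Nat.log g x + g ^ e * y' := by rw [← hy']; ring
    rw [this, Nat.add_mul_div_left _ _ hpos, Nat.add_mod]
  unfold kapF
  rw [hvA, hvB, hqA, hqB, hLB, hL]
  apply kapC_ne
  · rcases Nat.eq_zero_or_pos (y' % g) with h | h
    · exact absurd (Nat.dvd_of_mod_eq_zero h) hyd
    · exact h
  · exact Nat.mod_lt _ (by omega)
  · exact Nat.mod_lt _ (by omega)

end Pool.NH23.PR
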