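import Pool.Agent.NH23.PR.Stm

/-!
Project PRR, PRR-1 (helper17): the iterated logarithm.
-/

set_option autoImplicit false

namespace Pool.NH23.PR

theorem star_lam_lt {g t : ℕ} (h : t < g) : lam g t = 0 := by
  rw [lam, dif_pos (Or.inr h)]

theorem star_lam_ge {g t : ℕ} (hg : 2 ≤ g) (h : g ≤ t) : lam g t = 1 + lam g (Nat.log g t) := by
  conv_lhs => rw [lam]
  rw [dif_neg (by omega)]

theorem star_mono {g : ℕ} (hg : 2 ≤ g) : ∀ t s : ℕ, s ≤ t → lam g s ≤ lam g t := by
  intro t
  induction t using Nat.strong_induction_on with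
  | _ t ih =>
    intro s hs
    rcases lt_or_ge s g with h | h
    · rw [star_lam_lt h]
      exact Nat.zero_le _
    · rw [star_lam_ge hg h, star_lam_ge hg (h.trans hs)]
      have h1 := ih (Nat.log g t) (Nat.log_lt_self g (by omega)) (Nat.log g s)
        (Nat.log_mono_right hs)
      omega

theorem star_log {g x : ℕ} (hg : 2 ≤ g) (hx : 1 ≤ x) (y : ℕ) :
    Nat.log g (g ^ y * x) = y + Nat.log g x := by
  induction y with
  | zero => simp
  | succ y ih =>
    have h1 : g ^ (y + 1) * x = g ^ y * x * g := by ring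
    have h2 : g ^ y * x ≠ 0 := by positivity
    rw [h1, Nat.log_mul_base (by omega) h2, ih]
    omega

theorem star : S_STAR := by
  intro g x y hg hx hxy
  have hy : 1 ≤ y := hx.trans hxy
  have hgy : g ≤ g ^ y := by
    calc g = g ^ 1 := (pow_one g).symm
      _ ≤ g ^ y := Nat.pow_le_pow_right (by omega) hy
  have h1 : g ≤ g ^ y * x := hgy.trans (Nat.le_mul_of_pos_right _ (by omega))
  rw [star_lam_ge hg h1, star_log hg hx]
  have h2 : lam g y ≤ lam g (y + Nat.log g x) := star_mono hg _ _ (by omega)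
  have h3 : y + Nat.log g x ≤ g ^ y := by
    have h4 : Nat.log g x ≤ Nat.log g y := Nat.log_mono_right hxy
    have h5 : Nat.log g y < y := Nat.log_lt_self g (by omega)
    have h6 : y - 1 < 2 ^ (y - 1) := Nat.lt_two_pow_self
    have h7 : 2 ^ y = 2 * 2 ^ (y - 1) := by
      conv_lhs => rw [show y = (y - 1) + 1 by omega, pow_succ]
      ring
    have h8 : 2 ^ y ≤ g ^ y := Nat.pow_le_pow_left hg y
    omega
  have h4 : lam g (y + Nat.log g x) ≤ 1 + lam g y := by
    refine (star_mono hg _ _ h3).trans ?_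
    rw [star_lam_ge hg hgy, Nat.log_pow (by omega)]
  omega

end Pool.NH23.PR
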