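import Pool.Agent.NH23.PR.Stm

/-! PRR-2 (helper48). -/

set_option autoImplicit false

namespace Pool.NH23.PR

theorem tower_lam_ge {t : ℕ} (h : 2 ≤ t) : lam 2 t = 1 + lam 2 (Nat.log 2 t) := by
  rw [lam, dif_neg (by omega)]

theorem tower_lam_lt {t : ℕ} (h : t < 2) : lam 2 t = 0 := by
  rw [lam, dif_pos (by omega)]

theorem tower_lam_mono : ∀ n m : ℕ, m ≤ n → lam 2 m ≤ lam 2 n := by
  intro n
  induction n using Nat.strong_induction_on with
  | _ n ih =>
    intro m hm
    rcases Nat.lt_or_ge m 2 with h | h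
    · rw [tower_lam_lt h]
      exact Nat.zero_le _
    · rw [tower_lam_ge h, tower_lam_ge (h.trans hm)]
      have h1 : Nat.log 2 m ≤ Nat.log 2 n := Nat.log_mono_right hm
      have h2 : Nat.log 2 n < n := Nat.log_lt_self 2 (by omega)
      exact Nat.add_le_add_left (ih _ h2 _ h1) 1

theorem tower_lam_pow {n : ℕ} (hn : 1 ≤ n) : lam 2 (2 ^ n) = 1 + lam 2 n := by
  have h1 : 2 ≤ 2 ^ n := by
    calc 2 = 2 ^ 1 := rfl
      _ ≤ 2 ^ n := Nat.pow_le_pow_right (by norm_num) hn
  rw [tower_lam_ge h1, Nat.log_pow (by norm_num)]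

theorem tower_le (b : ℕ) : ∀ j n : ℕ, n < tw j (b + 1) → lam 2 n ≤ lam 2 b + j := by
  intro j
  induction j with
  | zero =>
    intro n hn
    exact tower_lam_mono b n (Nat.lt_succ_iff.1 hn)
  | succ j ih =>
    intro n hn
    rcases Nat.lt_or_ge n 2 with h | h
    · rw [tower_lam_lt h]
      exact Nat.zero_le _
    · rw [tower_lam_ge h]
      have h1 : Nat.log 2 n < tw j (b + 1) := Nat.log_lt_of_lt_pow (by omega) hn
      have h2 := ih _ h1
      omega

theorem tower_ge (b : ℕ) : ∀ k, b ≤ tw k b := by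
  intro k
  induction k with
  | zero => exact le_refl _
  | succ k ih => exact ih.trans Nat.lt_two_pow_self.le

theorem tower_succ (b : ℕ) : ∀ k, tw k b + 1 ≤ tw k (b + 1) := by
  intro k
  induction k with
  | zero => exact le_refl _
  | succ k ih =>
    change 2 ^ tw k b + 1 ≤ 2 ^ tw k (b + 1)
    exact Nat.pow_lt_pow_right (by norm_num) ih

theorem tower_sq : ∀ n : ℕ, n * n < 2 ^ (n + 1) := by
  intro n
  rcases Nat.lt_or_ge n 3 with h | h
  · interval_cases n <;> norm_num
  · induction n, h using Nat.le_induction with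
    | base => norm_num
    | succ n hn ih =>
      have h1 : 2 ^ (n + 1 + 1) = 2 * 2 ^ (n + 1) := by rw [pow_succ, mul_comm]
      rw [h1]
      nlinarith

theorem tower : S_TOWER := by
  intro h a b ha hb hab
  constructor
  · have h1 : 2 ^ b ≤ a ^ b := Nat.pow_le_pow_left ha b
    have h2 := tower_lam_mono _ _ h1
    rw [tower_lam_pow (by omega)] at h2
    omega
  · rw [add_assoc]
    apply tower_le
    rcases h with _ | k
    · change a ^ b < 2 ^ 2 ^ (b + 1)
      have h1 : a ≤ 2 ^ b := hab.trans (Nat.lt_two_pow_self (n := b)).le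
      calc a ^ b ≤ (2 ^ b) ^ b := Nat.pow_le_pow_left h1 b
        _ = 2 ^ (b * b) := by rw [pow_mul]
        _ < 2 ^ 2 ^ (b + 1) := Nat.pow_lt_pow_right (by norm_num) (tower_sq b)
    · have h0 : tw (k + 1 + 2) (b + 1) = 2 ^ 2 ^ 2 ^ tw k (b + 1) := rfl
      rw [h0]
      have hT := tower_ge b k
      have hT1 := tower_succ b k
      change a ≤ 2 ^ tw k b at hab
      calc a ^ b ≤ (2 ^ tw k b) ^ b := Nat.pow_le_pow_left hab b
        _ = 2 ^ (tw k b * b) := by rw [pow_mul]
        _ ≤ 2 ^ (tw k b * tw k b) :=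
          Nat.pow_le_pow_right (by norm_num) (Nat.mul_le_mul_left _ hT)
        _ < 2 ^ 2 ^ (tw k b + 1) := Nat.pow_lt_pow_right (by norm_num) (tower_sq _)
        _ ≤ 2 ^ 2 ^ tw k (b + 1) :=
          Nat.pow_le_pow_right (by norm_num) (Nat.pow_le_pow_right (by norm_num) hT1)
        _ ≤ 2 ^ 2 ^ 2 ^ tw k (b + 1) :=
          Nat.pow_le_pow_right (by norm_num) (Nat.pow_le_pow_right (by norm_num)
            Nat.lt_two_pow_self.le)

end Pool.NH23.PR
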