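import Pool.Agent.NH23.PR.Unq
import Pool.Agent.NH23.PR.Star
import Pool.Agent.NH23.PR.Tower
import Pool.Agent.NH23.PR.Kap
import Pool.Agent.NH23.PR.Base
import Pool.Agent.NH23.PR.Dep

set_option autoImplicit false

namespace Pool.NH23.PR

/-! ### the colouring of the exponents -/

abbrev Col := Fin 3 × Fin 2 × Fin 3 × Fin 2 × Fin 2

/-- no monochromatic `x, y, x + y, g^y x, g^y x + y` -/
theorem exists_chi : ∃ χ : ℕ → ℕ → Col, ∀ g x y : ℕ, 2 ≤ g → 1 ≤ x → 1 ≤ y →
    χ g y = χ g x → χ g (x + y) = χ g x → χ g (g ^ y * x) = χ g x →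
    χ g (g ^ y * x + y) = χ g x → False := by
  obtain ⟨kap, hk3, hkap⟩ := kap_main
  refine ⟨fun g t => (⟨lam g t % 3, Nat.mod_lt _ (by norm_num)⟩,
    ⟨Nat.log g t % 2, Nat.mod_lt _ (by norm_num)⟩, ⟨kap g t, hk3 g t⟩,
    ⟨cc g PLt t % 2, Nat.mod_lt _ (by norm_num)⟩, ⟨cc g PEq t % 2, Nat.mod_lt _ (by norm_num)⟩), ?_⟩
  intro g x y hg hx hy h1 h2 h3 h4
  simp only [Prod.mk.injEq, Fin.mk.injEq] at h1 h2 h3 h4
  obtain ⟨a1, a2, a3, a4, a5⟩ := h1
  obtain ⟨b1, b2, b3, b4, b5⟩ := h2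
  obtain ⟨c1, c2, c3, c4, c5⟩ := h3
  obtain ⟨d1, d2, d3, d4, d5⟩ := h4
  have hyx : y < x := by
    by_contra hcon
    rcases star g x y hg hx (by omega) with h | h <;> omega
  have hlog : Nat.log g (x + y) = Nat.log g x := by
    have e1 : Nat.log g x ≤ Nat.log g (x + y) := Nat.log_mono_right (by omega)
    have e2 : Nat.log g (x + y) < Nat.log g x + 2 := by
      apply Nat.log_lt_of_lt_pow (by omega)
      have e3 : x < g ^ (Nat.log g x + 1) := Nat.lt_pow_succ_log_self (by omega : 1 < g) x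
      have e4 : g ^ (Nat.log g x + 1) * 2 ≤ g ^ (Nat.log g x + 1) * g :=
        Nat.mul_le_mul_left _ hg
      rw [pow_succ]
      omega
    omega
  rcases Nat.lt_trichotomy (v g x) (v g y) with h | h | h
  · have := (step hg (uniq_lt hg) hy x hx h).2
    omega
  · have := (step hg (uniq_eq hg) hy x hx h).2
    omega
  · have := hkap g x y hg hx hy h hlog
    omega

/-! ### killing families of pairs -/

/-- some finite colouring has no monochromatic `a, b, ab, a^b, a^b b` with `Q a b` -/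
def Kills (Q : ℕ → ℕ → Prop) : Prop := ∃ (r : ℕ) (c : ℕ → Fin r), ∀ a b : ℕ, 1 < a → 1 < b →
  c b = c a → c (a * b) = c a → c (a ^ b) = c a → c (a ^ b * b) = c a → ¬ Q a b

theorem kills_of {α : Type} [Finite α] {Q : ℕ → ℕ → Prop} (c : ℕ → α)
    (hc : ∀ a b : ℕ, 1 < a → 1 < b →
      c b = c a → c (a * b) = c a → c (a ^ b) = c a → c (a ^ b * b) = c a → ¬ Q a b) : Kills Q := by
  obtain ⟨n, ⟨e⟩⟩ := Finite.exists_equiv_fin α
  exact ⟨n, fun m => e (c m), fun a b ha hb h1 h2 h3 h4 =>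
    hc a b ha hb (e.injective h1) (e.injective h2) (e.injective h3) (e.injective h4)⟩

theorem Kills.or {Q Q' : ℕ → ℕ → Prop} (h : Kills Q) (h' : Kills Q') :
    Kills (fun a b => Q a b ∨ Q' a b) := by
  obtain ⟨r, c, hc⟩ := h
  obtain ⟨r', c', hc'⟩ := h'
  refine kills_of (fun n => (c n, c' n)) ?_
  intro a b ha hb h1 h2 h3 h4
  simp only [Prod.mk.injEq] at h1 h2 h3 h4
  rintro (h | h)
  · exact hc a b ha hb h1.1 h2.1 h3.1 h4.1 h
  · exact hc' a b ha hb h1.2 h2.2 h3.2 h4.2 h

theorem Kills.mono {Q Q' : ℕ → ℕ → Prop} (h : Kills Q)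
    (hQ : ∀ a b, 1 < a → 1 < b → Q' a b → Q a b) : Kills Q' := by
  obtain ⟨r, c, hc⟩ := h
  exact ⟨r, c, fun a b ha hb h1 h2 h3 h4 h => hc a b ha hb h1 h2 h3 h4 (hQ a b ha hb h)⟩

theorem kills_lt (Q : ℕ → ℕ → ℕ → Prop) (h : ∀ n, Kills (Q n)) (H : ℕ) :
    Kills (fun a b => ∃ n < H, Q n a b) := by
  induction H with
  | zero => exact ⟨1, fun _ => 0, fun a b _ _ _ _ _ _ => by rintro ⟨n, hn, -⟩; omega⟩
  | succ H ih =>
    refine (ih.or (h H)).mono ?_
    rintro a b - - ⟨n, hn, hq⟩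
    rcases Nat.lt_succ_iff_lt_or_eq.1 hn with h1 | h1
    · exact Or.inl ⟨n, h1, hq⟩
    · subst h1; exact Or.inr hq

/-- multiplicative dependence -/
def Dp (a b : ℕ) : Prop := ∃ i j : ℕ, 0 < i ∧ 0 < j ∧ a ^ i = b ^ j

theorem kills_dp : Kills Dp := by
  obtain ⟨χ, hχ⟩ := exists_chi
  obtain ⟨G, T, hG, hdep⟩ := base
  refine kills_of (fun n => χ (G n) (T n)) ?_
  rintro a b ha hb h1 h2 h3 h4 ⟨i, j, hi, hj, hij⟩
  have hab : G a = G b := hdep a b ha hb ⟨i, j, hi, hj, hij⟩
  have hb0 : 0 < b := by omega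
  have ha0 : 0 < a := by omega
  have hab2 : 2 ≤ a * b := by nlinarith
  have hapb : 2 ≤ a ^ b := le_trans ha (Nat.le_self_pow (by omega) a)
  have hapbb : 2 ≤ a ^ b * b := by nlinarith
  have g1 : G (a * b) = G a := (hdep a (a * b) ha hab2 ⟨i + j, j, by omega, hj, by
    rw [mul_pow, pow_add, hij, mul_comm]⟩).symm
  have g2 : G (a ^ b) = G a := (hdep a (a ^ b) ha hapb ⟨b, 1, hb0, one_pos, by rw [pow_one]⟩).symm
  have g3 : G (a ^ b * b) = G a := (hdep a (a ^ b * b) ha hapbb ⟨b * j + i, j, by positivity, hj, by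
    rw [mul_pow, pow_add, hij, ← pow_mul]⟩).symm
  obtain ⟨ga, ta, ea⟩ := hG a ha
  obtain ⟨gb, tb, eb⟩ := hG b hb
  obtain ⟨gab, tab, eab⟩ := hG (a * b) hab2
  obtain ⟨gp, tp, ep⟩ := hG (a ^ b) hapb
  obtain ⟨gq, tq, eq⟩ := hG (a ^ b * b) hapbb
  rw [← hab] at eb
  rw [g1] at eab
  rw [g2] at ep
  rw [g3] at eq
  set g := G a with hg
  have hinj : ∀ m n : ℕ, g ^ m = g ^ n → m = n := fun m n h => Nat.pow_right_injective ga h
  have t1 : T (a * b) = T a + T b := hinj _ _ (by rw [eab, pow_add, ea, eb])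
  have t2 : T (a ^ b) = g ^ T b * T a := hinj _ _ (by rw [ep, eb, mul_comm, pow_mul, ea])
  have t3 : T (a ^ b * b) = g ^ T b * T a + T b := hinj _ _ (by
    rw [eq, pow_add, eb, mul_comm b, pow_mul, ea])
  rw [← hab] at h1
  rw [g1, t1] at h2
  rw [g2, t2] at h3
  rw [g3, t3] at h4
  exact hχ g (T a) (T b) ga ta tb h1 h2 h3 h4

theorem kills_pp : Kills (fun a b => IsPrimePow a ∨ IsPrimePow b) := by
  classical
  obtain ⟨r, c, hc⟩ := kills_dp
  refine kills_of (fun n => (c n, decide (IsPrimePow n))) ?_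
  intro a b ha hb h1 h2 h3 h4 h
  simp only [Prod.mk.injEq, decide_eq_decide] at h1 h2 h3 h4
  exact hc a b ha hb h1.1 h2.1 h3.1 h4.1 (dep a b ha hb h h1.2.symm h2.2)

theorem kills_tower (t : ℕ) : Kills (fun a b => a ≤ tw t b) := by
  refine kills_of (fun n => (⟨lam 2 n % (t + 3), Nat.mod_lt _ (by omega)⟩ : Fin (t + 3))) ?_
  intro a b ha hb h1 h2 h3 h4 h
  simp only [Fin.mk.injEq] at h1 h2 h3 h4
  obtain ⟨l1, l2⟩ := tower t a b ha hb h
  have h5 : lam 2 (a ^ b) % (t + 3) = lam 2 b % (t + 3) := h3.trans h1.symm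
  obtain ⟨e, he⟩ : ∃ e, lam 2 (a ^ b) = lam 2 b + e := ⟨lam 2 (a ^ b) - lam 2 b, by omega⟩
  rw [he] at h5
  have h6 : (t + 3) ∣ e := by
    have : lam 2 b + e ≡ lam 2 b + 0 [MOD (t + 3)] := by
      unfold Nat.ModEq; rw [add_zero]; exact h5
    exact (Nat.modEq_zero_iff_dvd).1 (Nat.ModEq.add_left_cancel' _ this)
  have := Nat.le_of_dvd (by omega) h6
  omega

theorem minFac_eq {m n : ℕ} (hm : 2 ≤ m) (hn : 2 ≤ n) (h : m.primeFactors = n.primeFactors) :
    m.minFac = n.minFac := by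
  have key : ∀ m n : ℕ, 2 ≤ m → 2 ≤ n → m.primeFactors = n.primeFactors →
      m.minFac ≤ n.minFac := by
    intro m n hm hn h
    have hp := Nat.minFac_prime (by omega : n ≠ 1)
    have : n.minFac ∈ m.primeFactors := by
      rw [h]; exact Nat.mem_primeFactors.2 ⟨hp, Nat.minFac_dvd n, by omega⟩
    exact Nat.minFac_le_of_dvd hp.two_le (Nat.dvd_of_mem_primeFactors this)
  exact le_antisymm (key m n hm hn h) (key n m hn hm h.symm)

/-- `a`, `b` have the same prime factors and `b` is a power of the number `H S` attached to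
this set `S` of primes; the exponent of the smallest prime in `H S` is the fixed number `k` -/
theorem kills_H (H : Finset ℕ → ℕ) (k : ℕ) (hk : 0 < k) :
    Kills (fun a b => a.primeFactors = b.primeFactors ∧
      (H b.primeFactors).factorization b.minFac = k ∧ ∃ y, b = H b.primeFactors ^ y) := by
  obtain ⟨χ, hχ⟩ := exists_chi
  refine kills_of (fun n => ((⟨n.factorization n.minFac % k, Nat.mod_lt _ hk⟩ : Fin k),
    χ (H n.primeFactors) (n.factorization n.minFac / k))) ?_
  rintro a b ha hb h1 h2 h3 h4 ⟨hpf, hfk, y, hy⟩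
  generalize hs : H b.primeFactors = s at hfk hy
  have ha0 : a ≠ 0 := by omega
  have hb0 : b ≠ 0 := by omega
  have hy1 : 1 ≤ y := by
    rcases Nat.eq_zero_or_pos y with h0 | h0
    · subst h0; simp at hy; omega
    · exact h0
  have hs2 : 2 ≤ s := by
    by_contra hcon
    interval_cases s
    · rw [zero_pow (by omega)] at hy; omega
    · simp at hy; omega
  have q1 : (a * b).primeFactors = b.primeFactors := by
    rw [Nat.primeFactors_mul ha0 hb0, hpf, Finset.union_self]
  have q2 : (a ^ b).primeFactors = b.primeFactors := by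
    rw [Nat.primeFactors_pow a hb0, hpf]
  have q3 : (a ^ b * b).primeFactors = b.primeFactors := by
    rw [Nat.primeFactors_mul (by positivity) hb0, q2, Finset.union_self]
  have hab2 : 2 ≤ a * b := by nlinarith
  have hapb : 2 ≤ a ^ b := le_trans ha (Nat.le_self_pow hb0 a)
  have hapbb : 2 ≤ a ^ b * b := by nlinarith
  have m0 : a.minFac = b.minFac := minFac_eq ha hb hpf
  have m1 : (a * b).minFac = b.minFac := minFac_eq hab2 hb q1
  have m2 : (a ^ b).minFac = b.minFac := minFac_eq hapb hb q2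
  have m3 : (a ^ b * b).minFac = b.minFac := minFac_eq hapbb hb q3
  have hp : b.minFac.Prime := Nat.minFac_prime (by omega)
  simp only [hpf, q1, q2, q3, hs, m0, m1, m2, m3, Prod.mk.injEq, Fin.mk.injEq] at h1 h2 h3 h4
  set q := b.minFac with hq
  have fb : b.factorization q = k * y := by
    conv_lhs => rw [hy]
    rw [Nat.factorization_pow]; simp [hfk, mul_comm]
  have fab : (a * b).factorization q = a.factorization q + k * y := by
    rw [Nat.factorization_mul ha0 hb0, Finsupp.add_apply, fb]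
  have fp : (a ^ b).factorization q = s ^ y * a.factorization q := by
    rw [Nat.factorization_pow, ← hy]; simp
  have fq : (a ^ b * b).factorization q = s ^ y * a.factorization q + k * y := by
    rw [Nat.factorization_mul (by positivity) hb0, Finsupp.add_apply, fp, fb]
  rw [fb] at h1
  rw [fab] at h2
  rw [fp] at h3
  rw [fq] at h4
  have hx : 1 ≤ a.factorization q := by
    apply hp.factorization_pos_of_dvd ha0
    rw [← m0]; exact Nat.minFac_dvd a
  obtain ⟨x, hx2⟩ : k ∣ a.factorization q := by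
    have h11 := h1.1
    rw [Nat.mul_mod_right] at h11
    exact Nat.dvd_of_mod_eq_zero h11.symm
  rw [hx2] at h1 h2 h3 h4 hx
  have hx1 : 1 ≤ x := by
    rcases Nat.eq_zero_or_pos x with h0 | h0
    · subst h0; simp at hx
    · exact h0
  have e1 : k * x / k = x := Nat.mul_div_cancel_left _ hk
  have e2 : k * y / k = y := Nat.mul_div_cancel_left _ hk
  have e3 : (k * x + k * y) / k = x + y := by rw [← mul_add]; exact Nat.mul_div_cancel_left _ hk
  have e4 : s ^ y * (k * x) / k = s ^ y * x := by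
    rw [show s ^ y * (k * x) = k * (s ^ y * x) by ring]; exact Nat.mul_div_cancel_left _ hk
  have e5 : (s ^ y * (k * x) + k * y) / k = s ^ y * x + y := by
    rw [show s ^ y * (k * x) + k * y = k * (s ^ y * x + y) by ring]
    exact Nat.mul_div_cancel_left _ hk
  have k1 := h1.2
  have k2 := h2.2
  have k3 := h3.2
  have k4 := h4.2
  rw [e1, e2] at k1
  rw [e1, e3] at k2
  rw [e1, e4] at k3
  rw [e1, e5] at k4
  exact hχ s x y hs2 hx1 hy1 k1 k2 k3 k4

/-- `a` and `b` have the same prime factors and `b` is a power of a squarefree number -/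
theorem kills_rad : Kills (fun a b => a.primeFactors = b.primeFactors ∧
    ∃ s k, Squarefree s ∧ b = s ^ k) := by
  refine (kills_H (fun S => ∏ p ∈ S, p) 1 one_pos).mono ?_
  rintro a b ha hb ⟨hpf, s, y, hs, rfl⟩
  have hy : 1 ≤ y := by
    rcases Nat.eq_zero_or_pos y with h0 | h0
    · subst h0; simp at hb
    · exact h0
  have hs2 : 2 ≤ s := by
    by_contra hcon
    interval_cases s
    · rw [zero_pow (by omega)] at hb; omega
    · simp at hb
  have hspf : (s ^ y).primeFactors = s.primeFactors := Nat.primeFactors_pow s (by omega)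
  have hprod : ∏ p ∈ s.primeFactors, p = s := Nat.prod_primeFactors_of_squarefree hs
  have hm : (s ^ y).minFac = s.minFac := minFac_eq hb hs2 hspf
  refine ⟨hpf, ?_, y, ?_⟩
  · simp only [hspf, hprod, hm]
    apply le_antisymm
    · exact hs.natFactorization_le_one _
    · exact (Nat.minFac_prime (by omega)).factorization_pos_of_dvd (by omega) (Nat.minFac_dvd s)
  · simp only [hspf, hprod]

end Pool.NH23.PR
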