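import Pool.Agent.NH23.PR.Kill

set_option autoImplicit false

namespace Pool.NH23.PR

/-- index of `p` in the finite set `S` -/
def idx (S : Finset ℕ) (p : ℕ) : ℕ := (S.filter (· < p)).card

/-- the number with prime set `S` and exponent pattern `σ` -/
def hsig (σ : ℕ → ℕ) (S : Finset ℕ) : ℕ := ∏ p ∈ S, p ^ σ (idx S p)

def ext {M : ℕ} (σ : Fin M → Fin (M + 1)) (i : ℕ) : ℕ := if hi : i < M then (σ ⟨i, hi⟩ : ℕ) else 0

theorem idx_lt {S : Finset ℕ} {p q : ℕ} (hp : p ∈ S) (h : p < q) : idx S p < idx S q := by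
  apply Finset.card_lt_card
  rw [Finset.ssubset_iff_of_subset]
  · exact ⟨p, by simp [hp, h], by simp⟩
  · intro r hr
    simp only [Finset.mem_filter] at hr ⊢
    exact ⟨hr.1, by omega⟩

theorem idx_inj {S : Finset ℕ} {p q : ℕ} (hp : p ∈ S) (hq : q ∈ S) (h : idx S p = idx S q) :
    p = q := by
  rcases Nat.lt_trichotomy p q with h1 | h1 | h1
  · have := idx_lt hp h1; omega
  · exact h1
  · have := idx_lt hq h1; omega

theorem idx_lt_card {S : Finset ℕ} {p : ℕ} (hp : p ∈ S) : idx S p < S.card := by
  apply Finset.card_lt_card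
  rw [Finset.ssubset_iff_of_subset (Finset.filter_subset _ _)]
  exact ⟨p, hp, by simp⟩

theorem Om_eq (h : ℕ) : ArithmeticFunction.cardFactors h = ∑ p ∈ h.primeFactors, h.factorization p := by
  rw [ArithmeticFunction.cardFactors_eq_sum_factorization]
  rfl

theorem om_le {h : ℕ} : h.primeFactors.card ≤ ArithmeticFunction.cardFactors h := by
  rw [Om_eq, Finset.card_eq_sum_ones]
  apply Finset.sum_le_sum
  intro p hp
  exact (Nat.prime_of_mem_primeFactors hp).factorization_pos_of_dvd
    (Nat.mem_primeFactors.1 hp).2.2 (Nat.dvd_of_mem_primeFactors hp)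

theorem exists_sig {h M : ℕ} (hh : 2 ≤ h) (hM : ArithmeticFunction.cardFactors h ≤ M) :
    ∃ σ : Fin M → Fin (M + 1), hsig (ext σ) h.primeFactors = h := by
  set S := h.primeFactors with hS
  have hsum : ∀ T ⊆ S, ∑ p ∈ T, h.factorization p ≤ M := by
    intro T hT
    refine le_trans ?_ hM
    rw [Om_eq]
    exact Finset.sum_le_sum_of_subset hT
  refine ⟨fun i => ⟨∑ p ∈ S.filter (fun p => idx S p = i), h.factorization p,
    Nat.lt_succ_of_le (hsum _ (Finset.filter_subset _ _))⟩, ?_⟩
  unfold hsig
  have key : ∀ p ∈ S, ext (M := M) (fun i => ⟨∑ p ∈ S.filter (fun p => idx S p = i), h.factorization p,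
      Nat.lt_succ_of_le (hsum _ (Finset.filter_subset _ _))⟩) (idx S p) = h.factorization p := by
    intro p hp
    have h1 : idx S p < M := lt_of_lt_of_le (idx_lt_card hp) (le_trans om_le hM)
    unfold ext
    rw [dif_pos h1]
    simp only
    have h2 : S.filter (fun q => idx S q = idx S p) = {p} := by
      ext q
      simp only [Finset.mem_filter, Finset.mem_singleton]
      constructor
      · rintro ⟨h3, h4⟩; exact idx_inj h3 hp h4
      · rintro rfl; exact ⟨hp, rfl⟩
    rw [h2, Finset.sum_singleton]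
  rw [Finset.prod_congr rfl (fun p hp => by rw [key p hp])]
  have := Nat.prod_factorization_pow_eq_self (n := h) (by omega)
  conv_rhs => rw [← this]
  rfl

theorem kills_univ {ι : Type} [Finite ι] (Q : ι → ℕ → ℕ → Prop) (h : ∀ i, Kills (Q i)) :
    Kills (fun a b => ∃ i, Q i a b) := by
  choose r c hc using h
  refine kills_of (α := (i : ι) → Fin (r i)) (fun n i => c i n) ?_
  rintro a b ha hb h1 h2 h3 h4 ⟨i, hi⟩
  exact hc i a b ha hb (congrFun h1 i) (congrFun h2 i) (congrFun h3 i) (congrFun h4 i) hi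

/-- `b` is a power of a number with at most `M` prime factors, and `a`, `b` have the same primes -/
theorem kills_same (M : ℕ) : Kills (fun a b => a.primeFactors = b.primeFactors ∧
    ∃ h y, ArithmeticFunction.cardFactors h ≤ M ∧ b = h ^ y) := by
  refine (kills_univ (ι := (Fin M → Fin (M + 1)) × Fin M)
    (fun i a b => a.primeFactors = b.primeFactors ∧
      (hsig (ext i.1) b.primeFactors).factorization b.minFac = i.2 + 1 ∧
      ∃ y, b = hsig (ext i.1) b.primeFactors ^ y)
    (fun i => kills_H (fun S => hsig (ext i.1) S) (i.2 + 1) (by omega))).mono ?_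
  rintro a b ha hb ⟨hpf, h, y, hM, rfl⟩
  have hy : 1 ≤ y := by
    rcases Nat.eq_zero_or_pos y with h0 | h0
    · subst h0; simp at hb
    · exact h0
  have hh : 2 ≤ h := by
    by_contra hcon
    interval_cases h
    · rw [zero_pow (by omega)] at hb; omega
    · simp at hb
  obtain ⟨σ, hσ⟩ := exists_sig hh hM
  have hspf : (h ^ y).primeFactors = h.primeFactors := Nat.primeFactors_pow h (by omega)
  have hm : (h ^ y).minFac = h.minFac := minFac_eq hb hh hspf
  have hp : h.minFac.Prime := Nat.minFac_prime (by omega)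
  have hpos : 0 < h.factorization h.minFac :=
    hp.factorization_pos_of_dvd (by omega) (Nat.minFac_dvd h)
  have hle : h.factorization h.minFac ≤ M := by
    refine le_trans ?_ hM
    rw [Om_eq]
    apply Finset.single_le_sum (f := fun p => h.factorization p) (fun _ _ => Nat.zero_le _)
    exact Nat.mem_primeFactors.2 ⟨hp, Nat.minFac_dvd h, by omega⟩
  refine ⟨(σ, ⟨h.factorization h.minFac - 1, by omega⟩), hpf, ?_, y, ?_⟩
  · simp only [hspf, hσ, hm]
    omega
  · simp only [hspf, hσ]

theorem kills_Om_b (M : ℕ) : Kills (fun _ b => ∃ h y, ArithmeticFunction.cardFactors h ≤ M ∧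
    b = h ^ y) := by
  obtain ⟨r, c, hc⟩ := kills_same M
  refine kills_of (fun n => (c n, (⟨min n.primeFactors.card (M + 1), by omega⟩ : Fin (M + 2)))) ?_
  rintro a b ha hb h1 h2 h3 h4 ⟨h, y, hM, hbh⟩
  simp only [Prod.mk.injEq, Fin.mk.injEq] at h1 h2 h3 h4
  refine hc a b ha hb h1.1 h2.1 h3.1 h4.1 ⟨?_, h, y, hM, hbh⟩
  have hb1 : b.primeFactors.card ≤ M := by
    rw [hbh]
    rcases Nat.eq_zero_or_pos y with h0 | h0
    · subst h0; simp
    · rw [Nat.primeFactors_pow h (by omega)]
      exact le_trans om_le hM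
  have h12 := h1.2
  have h22 := h2.2
  rw [Nat.primeFactors_mul (by omega) (by omega)] at h22
  have e1 : a.primeFactors = a.primeFactors ∪ b.primeFactors :=
    Finset.eq_of_subset_of_card_le Finset.subset_union_left (by omega)
  have e2 : b.primeFactors = a.primeFactors ∪ b.primeFactors :=
    Finset.eq_of_subset_of_card_le Finset.subset_union_right (by omega)
  exact e1.trans e2.symm

theorem kills_Om (M : ℕ) : Kills (fun a b =>
    (∃ h y, ArithmeticFunction.cardFactors h ≤ M ∧ a = h ^ y) ∨
    (∃ h y, ArithmeticFunction.cardFactors h ≤ M ∧ b = h ^ y)) := by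
  classical
  obtain ⟨r, c, hc⟩ := kills_Om_b M
  refine kills_of (fun n => (c n, (⟨min n.primeFactors.card (M + 1), by omega⟩ : Fin (M + 2)),
    fun σ : Fin M → Fin (M + 1) => decide (∃ y, n = hsig (ext σ) n.primeFactors ^ y))) ?_
  rintro a b ha hb h1 h2 h3 h4 h
  simp only [Prod.mk.injEq, Fin.mk.injEq] at h1 h2 h3 h4
  refine hc a b ha hb h1.1 h2.1 h3.1 h4.1 ?_
  rcases h with ⟨h, y, hM, hah⟩ | h
  · have hy : 1 ≤ y := by
      rcases Nat.eq_zero_or_pos y with h0 | h0
      · subst h0; simp at hah; omega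
      · exact h0
    have hh : 2 ≤ h := by
      by_contra hcon
      interval_cases h
      · rw [zero_pow (by omega)] at hah; omega
      · simp at hah; omega
    have ha1 : a.primeFactors = h.primeFactors := by
      rw [hah]; exact Nat.primeFactors_pow h (by omega)
    have ha2 : a.primeFactors.card ≤ M := by rw [ha1]; exact le_trans om_le hM
    have h12 := h1.2.1
    have h22 := h2.2.1
    rw [Nat.primeFactors_mul (by omega) (by omega)] at h22
    have e1 : a.primeFactors = a.primeFactors ∪ b.primeFactors :=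
      Finset.eq_of_subset_of_card_le Finset.subset_union_left (by omega)
    have e2 : b.primeFactors = a.primeFactors ∪ b.primeFactors :=
      Finset.eq_of_subset_of_card_le Finset.subset_union_right (by omega)
    obtain ⟨σ, hσ⟩ := exists_sig hh hM
    have h13 := congrFun h1.2.2 σ
    simp only [decide_eq_decide] at h13
    obtain ⟨z, hz⟩ := h13.2 ⟨y, by rw [ha1, hσ]; exact hah⟩
    rw [e2.trans (e1.symm.trans ha1), hσ] at hz
    exact ⟨h, z, hM, hz⟩
  · exact h

end Pool.NH23.PR
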