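import Pool.Agent.NH23.PR.Stm

set_option autoImplicit false

namespace Pool.NH23.PR

/-! ### valuations -/

theorem pow_dvd_iff_le_v {g t k : ℕ} (hg : 2 ≤ g) (ht : 1 ≤ t) : g ^ k ∣ t ↔ k ≤ v g t := by
  unfold v
  have hf : FiniteMultiplicity g t := Nat.finiteMultiplicity_iff.2 ⟨by omega, by omega⟩
  exact hf.pow_dvd_iff_le_multiplicity

theorem pow_v_dvd {g t : ℕ} (hg : 2 ≤ g) (ht : 1 ≤ t) : g ^ v g t ∣ t :=
  (pow_dvd_iff_le_v hg ht).2 le_rfl

theorem v_eq_of {g t k : ℕ} (hg : 2 ≤ g) (ht : 1 ≤ t) (h1 : g ^ k ∣ t) (h2 : ¬ g ^ (k + 1) ∣ t) :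
    v g t = k := by
  have h3 := (pow_dvd_iff_le_v hg ht).1 h1
  have h4 : ¬ (k + 1 ≤ v g t) := fun h => h2 ((pow_dvd_iff_le_v hg ht).2 h)
  omega

theorem v_le_log {g t : ℕ} (hg : 2 ≤ g) (ht : 1 ≤ t) : v g t ≤ Nat.log g t :=
  Nat.le_log_of_pow_le (by omega) (Nat.le_of_dvd (by omega) (pow_v_dvd hg ht))

theorem lt_pow {g : ℕ} (hg : 2 ≤ g) (n : ℕ) : n < g ^ n := Nat.lt_pow_self (by omega)

theorem v_lt_self {g t : ℕ} (hg : 2 ≤ g) (ht : 1 ≤ t) : v g t < t :=
  lt_of_lt_of_le (lt_pow hg _) (Nat.le_of_dvd (by omega) (pow_v_dvd hg ht))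

/-- adding a multiple of a higher power does not change the valuation -/
theorem v_add_of_dvd {g z x : ℕ} (hg : 2 ≤ g) (hx : 1 ≤ x) (hz : g ^ (v g x + 1) ∣ z) :
    v g (z + x) = v g x := by
  apply v_eq_of hg (by omega)
  · exact Dvd.dvd.add ((pow_dvd_pow g (Nat.le_succ _)).trans hz) (pow_v_dvd hg hx)
  · intro h
    have := (Nat.dvd_add_right hz).1 h
    have := (pow_dvd_iff_le_v hg hx).1 this
    omega

/-! ### leading digit decomposition -/

theorem log_dec {g d s m : ℕ} (hg : 2 ≤ g) (hd : 1 ≤ d) (hd' : d < g) (hm : m < g ^ s) :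
    Nat.log g (d * g ^ s + m) = s := by
  have hpos : 0 < g ^ s := by positivity
  apply Nat.log_eq_of_pow_le_of_lt_pow
  · nlinarith
  · rw [pow_succ]
    nlinarith

theorem div_dec {g d s m : ℕ} (hg : 2 ≤ g) (hm : m < g ^ s) : (d * g ^ s + m) / g ^ s = d := by
  have hpos : 0 < g ^ s := by positivity
  rw [Nat.add_comm, Nat.add_mul_div_right _ _ hpos, Nat.div_eq_of_lt hm, zero_add]

theorem mod_dec {g d s m : ℕ} (hm : m < g ^ s) : (d * g ^ s + m) % g ^ s = m := by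
  rw [Nat.add_comm, Nat.add_mul_mod_self_right, Nat.mod_eq_of_lt hm]

theorem exists_dec {g N : ℕ} (hg : 2 ≤ g) (hN : 1 ≤ N) :
    ∃ d s m, 1 ≤ d ∧ d < g ∧ m < g ^ s ∧ N = d * g ^ s + m := by
  have hpos : 0 < g ^ Nat.log g N := by positivity
  refine ⟨N / g ^ Nat.log g N, Nat.log g N, N % g ^ Nat.log g N, ?_, ?_, Nat.mod_lt _ hpos, ?_⟩
  · exact Nat.div_pos (Nat.pow_log_le_self g (by omega)) hpos
  · rw [Nat.div_lt_iff_lt_mul hpos, mul_comm, ← pow_succ]
    exact Nat.lt_pow_succ_log_self (by omega) N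
  · rw [mul_comm]; exact (Nat.div_add_mod N _).symm

theorem dec_inj {g d s m d' s' m' : ℕ} (hg : 2 ≤ g) (hd : 1 ≤ d) (hd' : d < g) (hm : m < g ^ s)
    (he : 1 ≤ d') (he' : d' < g) (hm' : m' < g ^ s') (h : d * g ^ s + m = d' * g ^ s' + m') :
    d = d' ∧ s = s' ∧ m = m' := by
  have h1 := log_dec hg hd hd' hm
  have h2 := log_dec hg he he' hm'
  rw [h] at h1
  have h3 : s = s' := by rw [← h1, h2]
  subst h3
  refine ⟨?_, rfl, ?_⟩
  · rw [← div_dec (d := d) hg hm, h, div_dec hg hm']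
  · rw [← mod_dec (d := d) hm, h, mod_dec hm']

theorem v_axis {g d s : ℕ} (hg : 2 ≤ g) (hd : 1 ≤ d) (hd' : d < g) : v g (d * g ^ s) = s := by
  have hpos : 0 < g ^ s := by positivity
  apply v_eq_of hg (by nlinarith) (Dvd.intro_left _ rfl)
  rw [pow_succ, mul_comm d, Nat.mul_dvd_mul_iff_left hpos]
  intro h
  have := Nat.le_of_dvd (by omega) h
  omega

theorem v_dec {g d s m : ℕ} (hg : 2 ≤ g) (hm1 : 1 ≤ m) (hm : m < g ^ s) :
    v g (d * g ^ s + m) = v g m := by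
  apply v_add_of_dvd hg hm1
  have h1 := v_le_log hg hm1
  have h2 : Nat.log g m < s := Nat.log_lt_of_lt_pow (by omega) hm
  exact (pow_dvd_pow g (by omega : v g m + 1 ≤ s)).trans (Dvd.intro_left _ rfl)

/-! ### the equations `E` -/

/-- `E g P Z a M`: `M + a = Z + log M + 1` and `P a (v M)` -/
def E (g : ℕ) (P : ℕ → ℕ → Prop) (Z a M : ℕ) : Prop :=
  1 ≤ M ∧ M + a = Z + Nat.log g M + 1 ∧ P a (v g M)

theorem two_mul_log_le {g M : ℕ} (hg : 2 ≤ g) (hM : 1 ≤ M) : 2 * Nat.log g M ≤ M := by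
  have h1 : g ^ Nat.log g M ≤ M := Nat.pow_log_le_self g (by omega)
  have h2 : 2 ^ Nat.log g M ≤ g ^ Nat.log g M := Nat.pow_le_pow_left hg _
  have h3 : ∀ k : ℕ, 2 * k ≤ 2 ^ k := by
    intro k
    induction k with
    | zero => simp
    | succ k ih =>
      rcases Nat.eq_zero_or_pos k with h | h
      · subst h; norm_num
      · have : 2 ≤ 2 ^ k := by
          calc 2 = 2 ^ 1 := by norm_num
            _ ≤ 2 ^ k := Nat.pow_le_pow_right (by norm_num) h
        rw [pow_succ]; omega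
  have := h3 (Nat.log g M)
  omega

theorem E_le {g : ℕ} {P : ℕ → ℕ → Prop} {Z a M : ℕ} (hg : 2 ≤ g) (h : E g P Z a M) :
    M ≤ 2 * Z + 2 := by
  obtain ⟨h1, h2, -⟩ := h
  have := two_mul_log_le hg h1
  omega

theorem E_a_le {g : ℕ} {P : ℕ → ℕ → Prop} {Z a M : ℕ} (hg : 2 ≤ g) (h : E g P Z a M) :
    a ≤ Z := by
  obtain ⟨h1, h2, -⟩ := h
  have := Nat.log_lt_self g (by omega : M ≠ 0)
  omega

theorem E_lt {g : ℕ} {P : ℕ → ℕ → Prop} {d s m a M : ℕ} (hg : 2 ≤ g) (hd : 1 ≤ d)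
    (hm1 : 1 ≤ m) (hm : m < g ^ s) (h : E g P (s - 1 - Nat.log g m) a M) :
    M < d * g ^ s + m := by
  have h1 := E_le hg h
  have hs : 1 ≤ s := by
    rcases Nat.eq_zero_or_pos s with h | h
    · subst h; simp at hm; omega
    · exact h
  have h2 : 2 * s ≤ g ^ s := by
    have := two_mul_log_le hg (M := g ^ s) (Nat.one_le_pow _ _ (by omega))
    rwa [Nat.log_pow (by omega)] at this
  have h3 : g ^ s ≤ d * g ^ s := Nat.le_mul_of_pos_left _ hd
  omega

open Classical in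
/-- root and parity of the component: see the docstring of the project -/
noncomputable def F (g : ℕ) (P : ℕ → ℕ → Prop) (N : ℕ) : ℕ × ℕ :=
  if _hm : N % g ^ Nat.log g N = 0 then (N, 0)
  else
    if h : ∃ p : ℕ × ℕ, ∃ _ : p.2 < N,
        E g P (Nat.log g N - 1 - Nat.log g (N % g ^ Nat.log g N)) p.1 p.2 ∧
        (F g P p.2).1 = (F g P (N % g ^ Nat.log g N)).1
    then (N / g ^ Nat.log g N * g ^ (h.choose.1),
      (F g P (N % g ^ Nat.log g N)).2 + (F g P h.choose.2).2 + 1)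
    else (N / g ^ Nat.log g N *
        g ^ ((Nat.log g N - 1 - Nat.log g (N % g ^ Nat.log g N)) +
          Nat.log g (F g P (N % g ^ Nat.log g N)).1 + 1) + (F g P (N % g ^ Nat.log g N)).1,
      (F g P (N % g ^ Nat.log g N)).2)
termination_by N
decreasing_by
  all_goals first
    | assumption
    | exact h.choose_spec.1
    | (rcases Nat.eq_zero_or_pos N with h0 | h0
       · subst h0; simp at _hm
       · rcases Nat.lt_or_ge g 1 with hg | hg
         · have : g = 0 := by omega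
           subst this
           simp at _hm
           omega
         · exact lt_of_lt_of_le (Nat.mod_lt _ (by positivity)) (Nat.pow_log_le_self g (by omega)))

noncomputable def rho (g : ℕ) (P : ℕ → ℕ → Prop) (N : ℕ) : ℕ := (F g P N).1
noncomputable def cc (g : ℕ) (P : ℕ → ℕ → Prop) (N : ℕ) : ℕ := (F g P N).2

theorem F_axis {g : ℕ} {P : ℕ → ℕ → Prop} {d s : ℕ} (hg : 2 ≤ g) (hd : 1 ≤ d) (hd' : d < g) :
    F g P (d * g ^ s) = (d * g ^ s, 0) := by
  have hpos : 0 < g ^ s := by positivity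
  have h1 := log_dec (m := 0) hg hd hd' hpos
  have h2 := mod_dec (g := g) (d := d) (m := 0) hpos
  rw [add_zero] at h1 h2
  rw [F, dif_pos (by rw [h1, h2])]

theorem rho_axis {g : ℕ} {P : ℕ → ℕ → Prop} {d s : ℕ} (hg : 2 ≤ g) (hd : 1 ≤ d) (hd' : d < g) :
    rho g P (d * g ^ s) = d * g ^ s := by rw [rho, F_axis hg hd hd']

theorem cc_axis {g : ℕ} {P : ℕ → ℕ → Prop} {d s : ℕ} (hg : 2 ≤ g) (hd : 1 ≤ d) (hd' : d < g) :
    cc g P (d * g ^ s) = 0 := by rw [cc, F_axis hg hd hd']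

theorem F_cases {g : ℕ} (P : ℕ → ℕ → Prop) {d s m : ℕ} (hg : 2 ≤ g) (hd : 1 ≤ d) (hd' : d < g)
    (hm1 : 1 ≤ m) (hm : m < g ^ s) :
    (∃ a M, E g P (s - 1 - Nat.log g m) a M ∧ rho g P M = rho g P m ∧
      rho g P (d * g ^ s + m) = d * g ^ a ∧ cc g P (d * g ^ s + m) = cc g P m + cc g P M + 1) ∨
    ((∀ a M, E g P (s - 1 - Nat.log g m) a M → rho g P M ≠ rho g P m) ∧
      rho g P (d * g ^ s + m) =
        d * g ^ (s - 1 - Nat.log g m + Nat.log g (rho g P m) + 1) + rho g P m ∧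
      cc g P (d * g ^ s + m) = cc g P m) := by
  have h1 := log_dec hg hd hd' hm
  have h2 := mod_dec (g := g) (d := d) hm
  have h3 := div_dec (d := d) hg hm
  have hne : ¬ ((d * g ^ s + m) % g ^ Nat.log g (d * g ^ s + m) = 0) := by
    rw [h1, h2]; omega
  by_cases h : ∃ p : ℕ × ℕ, ∃ _ : p.2 < d * g ^ s + m,
        E g P (Nat.log g (d * g ^ s + m) - 1 -
          Nat.log g ((d * g ^ s + m) % g ^ Nat.log g (d * g ^ s + m))) p.1 p.2 ∧
        (F g P p.2).1 = (F g P ((d * g ^ s + m) % g ^ Nat.log g (d * g ^ s + m))).1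
  · left
    refine ⟨h.choose.1, h.choose.2, ?_, ?_, ?_, ?_⟩
    · have h4 := h.choose_spec.2.1
      generalize h.choose = q at h4 ⊢
      rwa [h1, h2] at h4
    · have h4 := h.choose_spec.2.2
      generalize h.choose = q at h4 ⊢
      rwa [h1, h2] at h4
    · rw [rho, F, dif_neg hne, dif_pos h]
      simp only [h1, h3]
    · rw [cc, F, dif_neg hne, dif_pos h]
      simp only [h1, h2]
      rfl
  · right
    refine ⟨?_, ?_, ?_⟩
    · intro a M hE hr
      apply h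
      refine ⟨(a, M), E_lt hg hd hm1 hm hE, ?_, ?_⟩
      · rw [h1, h2]; exact hE
      · rw [h1, h2]; exact hr
    · rw [rho, F, dif_neg hne, dif_neg h]
      simp only [h1, h2, h3]
      rfl
    · rw [cc, F, dif_neg hne, dif_neg h]
      simp only [h1, h2]
      rfl

theorem rho_pos {g : ℕ} (P : ℕ → ℕ → Prop) (hg : 2 ≤ g) {N : ℕ} (hN : 1 ≤ N) :
    1 ≤ rho g P N := by
  obtain ⟨d, s, m, hd, hd', hm, rfl⟩ := exists_dec hg hN
  have hpow : ∀ k, 1 ≤ g ^ k := fun k => Nat.one_le_pow _ _ (by omega)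
  rcases Nat.eq_zero_or_pos m with h0 | h0
  · subst h0
    rw [add_zero, rho_axis hg hd hd']
    nlinarith [hpow s]
  · rcases F_cases P hg hd hd' h0 hm with ⟨a, M, -, -, h, -⟩ | ⟨-, h, -⟩
    · rw [h]; nlinarith [hpow a]
    · rw [h]
      nlinarith [hpow (s - 1 - Nat.log g m + Nat.log g (rho g P m) + 1)]

/-! ### the main step, given uniqueness -/

/-- uniqueness property -/
def Uniq (g : ℕ) (P : ℕ → ℕ → Prop) : Prop := ∀ Z a M a' M', E g P Z a M → E g P Z a' M' →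
  rho g P M = rho g P M' → a = a' ∧ M = M'

theorem log_shift {g m y : ℕ} (hg : 2 ≤ g) (hm : 1 ≤ m) :
    Nat.log g (g ^ y * m + y) = y + Nat.log g m := by
  have h1 : g ^ Nat.log g m ≤ m := Nat.pow_log_le_self g (by omega)
  have h2 : m < g ^ (Nat.log g m + 1) := Nat.lt_pow_succ_log_self (by omega) m
  have h3 := lt_pow hg y
  apply Nat.log_eq_of_pow_le_of_lt_pow
  · rw [pow_add]
    calc g ^ y * g ^ Nat.log g m ≤ g ^ y * m := Nat.mul_le_mul_left _ h1
      _ ≤ g ^ y * m + y := Nat.le_add_right _ _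
  · rw [add_assoc, pow_add]
    calc g ^ y * m + y < g ^ y * m + g ^ y := by omega
      _ = g ^ y * (m + 1) := by ring
      _ ≤ g ^ y * g ^ (Nat.log g m + 1) := Nat.mul_le_mul_left _ h2

theorem step {g : ℕ} {P : ℕ → ℕ → Prop} (hg : 2 ≤ g) (hU : Uniq g P) {y : ℕ} (hy : 1 ≤ y) :
    ∀ N : ℕ, 1 ≤ N → P (v g N) (v g y) →
      rho g P (g ^ y * N + y) = rho g P N ∧ cc g P (g ^ y * N + y) % 2 ≠ cc g P N % 2 := by
  intro N
  induction N using Nat.strong_induction_on with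
  | _ N ih =>
    intro hN hP
    obtain ⟨d, s, m, hd, hd', hm, rfl⟩ := exists_dec hg hN
    have hyl := lt_pow hg y
    have hps : 1 ≤ g ^ s := Nat.one_le_pow _ _ (by omega)
    have hpy : 1 ≤ g ^ y := Nat.one_le_pow _ _ (by omega)
    rcases Nat.eq_zero_or_pos m with h0 | h0
    · subst h0
      rw [add_zero] at hP ⊢
      rw [v_axis hg hd hd'] at hP
      have hm' : y < g ^ (s + y) := lt_of_lt_of_le hyl (Nat.pow_le_pow_right (by omega) (by omega))
      have e : g ^ y * (d * g ^ s) + y = d * g ^ (s + y) + y := by rw [pow_add]; ring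
      rw [e, rho_axis hg hd hd', cc_axis hg hd hd']
      have hlog : Nat.log g y < y := Nat.log_lt_self g (by omega)
      have hE : E g P (s + y - 1 - Nat.log g y) s y := ⟨hy, by omega, hP⟩
      rcases F_cases P hg hd hd' hy hm' with ⟨a, M, h1, h2, h3, h4⟩ | ⟨h1, -, -⟩
      · obtain ⟨rfl, rfl⟩ := hU _ _ _ _ _ h1 hE h2
        refine ⟨h3, ?_⟩
        rw [h4]; omega
      · exact absurd rfl (h1 _ _ hE)
    · have hvm := v_dec (d := d) hg h0 hm
      rw [hvm] at hP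
      have hmlt : m < d * g ^ s + m := by nlinarith
      obtain ⟨i1, i2⟩ := ih m hmlt h0 hP
      have hm' : g ^ y * m + y < g ^ (s + y) := by
        rw [pow_add, mul_comm (g ^ s)]
        calc g ^ y * m + y < g ^ y * (m + 1) := by rw [mul_add]; omega
          _ ≤ g ^ y * g ^ s := Nat.mul_le_mul_left _ hm
      have e : g ^ y * (d * g ^ s + m) + y = d * g ^ (s + y) + (g ^ y * m + y) := by
        rw [pow_add]; ring
      have hm1' : 1 ≤ g ^ y * m + y := by omega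
      have hZ : s + y - 1 - Nat.log g (g ^ y * m + y) = s - 1 - Nat.log g m := by
        rw [log_shift hg h0]
        have : Nat.log g m < s := Nat.log_lt_of_lt_pow (by omega) hm
        omega
      rw [e]
      have c1 := F_cases P hg hd hd' h0 hm
      have c2 := F_cases P hg hd hd' hm1' hm'
      rw [hZ, i1] at c2
      rcases c1 with ⟨a, M, h1, h2, h3, h4⟩ | ⟨h1, h2, h3⟩ <;>
        rcases c2 with ⟨a', M', k1, k2, k3, k4⟩ | ⟨k1, k2, k3⟩
      · obtain ⟨rfl, rfl⟩ := hU _ _ _ _ _ h1 k1 (h2.trans k2.symm)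
        refine ⟨by rw [k3, h3], ?_⟩
        rw [k4, h4]; omega
      · exact absurd h2 (k1 _ _ h1)
      · exact absurd k2 (h1 _ _ k1)
      · refine ⟨by rw [h2, k2], ?_⟩
        rw [k3, h3]; exact i2

end Pool.NH23.PR
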