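import Pool.Agent.NH23.PR.Om

set_option autoImplicit false

namespace Pool.NH23.PR

/-! ### selectors: a prime which divides only `b` and a prime which divides only `a` -/

theorem kills_sel (f g : Finset ℕ → ℕ) : Kills (fun a b =>
    f (a * b).primeFactors ∈ (a * b).primeFactors ∧ g (a * b).primeFactors ∈ (a * b).primeFactors ∧
    ¬ f (a * b).primeFactors ∣ a ∧ ¬ g (a * b).primeFactors ∣ b) := by
  refine kills_of (fun n => (⟨(n.factorization (g n.primeFactors)).factorization
    (f n.primeFactors) / n.factorization (f n.primeFactors) % 2,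
      Nat.mod_lt _ (by norm_num)⟩ : Fin 2)) ?_
  rintro a b ha hb h1 h2 h3 h4 ⟨hf, hg, hfa, hgb⟩
  have ha0 : a ≠ 0 := by omega
  have hb0 : b ≠ 0 := by omega
  have hS : (a ^ b * b).primeFactors = (a * b).primeFactors := by
    rw [Nat.primeFactors_mul (by positivity) hb0, Nat.primeFactors_pow a hb0,
      Nat.primeFactors_mul ha0 hb0]
  have h5 := h4.trans h2.symm
  simp only [Fin.mk.injEq, hS] at h5
  generalize f (a * b).primeFactors = q at hf hfa h5
  generalize g (a * b).primeFactors = p at hg hgb h5
  have hq : q.Prime := Nat.prime_of_mem_primeFactors hf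
  have hp : p.Prime := Nat.prime_of_mem_primeFactors hg
  have hqa : a.factorization q = 0 := Nat.factorization_eq_zero_of_not_dvd hfa
  have hpb : b.factorization p = 0 := Nat.factorization_eq_zero_of_not_dvd hgb
  have hqb : q ∣ b := by
    rcases (hq.dvd_mul).1 (Nat.dvd_of_mem_primeFactors hf) with h | h
    · exact absurd h hfa
    · exact h
  have hpa : p ∣ a := by
    rcases (hp.dvd_mul).1 (Nat.dvd_of_mem_primeFactors hg) with h | h
    · exact h
    · exact absurd h hgb
  have hy : 0 < b.factorization q := hq.factorization_pos_of_dvd hb0 hqb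
  have hx : 0 < a.factorization p := hp.factorization_pos_of_dvd ha0 hpa
  have e1 : (a * b).factorization q = b.factorization q := by
    rw [Nat.factorization_mul ha0 hb0, Finsupp.add_apply, hqa, zero_add]
  have e2 : (a ^ b * b).factorization q = b.factorization q := by
    rw [Nat.factorization_mul (by positivity) hb0, Finsupp.add_apply, Nat.factorization_pow]
    simp [hqa]
  have e3 : (a * b).factorization p = a.factorization p := by
    rw [Nat.factorization_mul ha0 hb0, Finsupp.add_apply, hpb, add_zero]
  have e4 : (a ^ b * b).factorization p = b * a.factorization p := by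
    rw [Nat.factorization_mul (by positivity) hb0, Finsupp.add_apply, Nat.factorization_pow]
    simp [hpb]
  have e5 : (b * a.factorization p).factorization q =
      (a.factorization p).factorization q + b.factorization q := by
    rw [Nat.factorization_mul hb0 (by omega), Finsupp.add_apply, add_comm]
  rw [e1, e2, e3, e4, e5, Nat.add_div_right _ hy] at h5
  omega

/-- the `i`-th smallest and the `i`-th largest element -/
def selS (i : ℕ) (S : Finset ℕ) : ℕ :=
  ∑ p ∈ S.filter (fun p => (S.filter (· < p)).card = i), p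
def selL (i : ℕ) (S : Finset ℕ) : ℕ :=
  ∑ p ∈ S.filter (fun p => (S.filter (p < ·)).card = i), p

theorem selS_eq {S : Finset ℕ} {p : ℕ} (hp : p ∈ S) :
    selS ((S.filter (· < p)).card) S = p := by
  unfold selS
  have : S.filter (fun q => (S.filter (· < q)).card = (S.filter (· < p)).card) = {p} := by
    ext q
    simp only [Finset.mem_filter, Finset.mem_singleton]
    constructor
    · rintro ⟨h3, h4⟩; exact idx_inj h3 hp h4
    · rintro rfl; exact ⟨hp, rfl⟩
  rw [this, Finset.sum_singleton]

theorem selL_eq {S : Finset ℕ} {p : ℕ} (hp : p ∈ S) :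
    selL ((S.filter (p < ·)).card) S = p := by
  have key : ∀ p q : ℕ, q ∈ S → p < q → (S.filter (q < ·)).card < (S.filter (p < ·)).card := by
    intro p q hq h
    apply Finset.card_lt_card
    rw [Finset.ssubset_iff_of_subset]
    · exact ⟨q, by simp [hq, h], by simp⟩
    · intro r hr
      simp only [Finset.mem_filter] at hr ⊢
      exact ⟨hr.1, by omega⟩
  unfold selL
  have : S.filter (fun q => (S.filter (q < ·)).card = (S.filter (p < ·)).card) = {p} := by
    ext q
    simp only [Finset.mem_filter, Finset.mem_singleton]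
    constructor
    · rintro ⟨h3, h4⟩
      rcases Nat.lt_trichotomy p q with h1 | h1 | h1
      · have := key p q h3 h1; omega
      · exact h1.symm
      · have := key q p hp h1; omega
    · rintro rfl; exact ⟨hp, rfl⟩
  rw [this, Finset.sum_singleton]

/-- `p` is one of the `M` smallest or of the `M` largest prime factors of `n` -/
def Ext (M n p : ℕ) : Prop := p ∈ n.primeFactors ∧
  ((n.primeFactors.filter (· < p)).card < M ∨ (n.primeFactors.filter (p < ·)).card < M)

def selB {M : ℕ} (i : Fin M ⊕ Fin M) (S : Finset ℕ) : ℕ :=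
  match i with
  | Sum.inl i => selS i S
  | Sum.inr i => selL i S

theorem exists_selB {M n p : ℕ} (h : Ext M n p) : ∃ i : Fin M ⊕ Fin M, selB i n.primeFactors = p := by
  obtain ⟨h1, h2 | h2⟩ := h
  · exact ⟨Sum.inl ⟨_, h2⟩, selS_eq h1⟩
  · exact ⟨Sum.inr ⟨_, h2⟩, selL_eq h1⟩

theorem kills_ext (M : ℕ) : Kills (fun a b =>
    (∃ q, Ext M (a * b) q ∧ ¬ q ∣ a) ∧ (∃ p, Ext M (a * b) p ∧ ¬ p ∣ b)) := by
  refine (kills_univ (ι := (Fin M ⊕ Fin M) × (Fin M ⊕ Fin M)) _
    (fun i => kills_sel (selB i.1) (selB i.2))).mono ?_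
  rintro a b ha hb ⟨⟨q, hq, hqa⟩, p, hp, hpb⟩
  obtain ⟨i, hi⟩ := exists_selB hq
  obtain ⟨j, hj⟩ := exists_selB hp
  exact ⟨(i, j), by simp only [hi, hj]; exact ⟨hq.1, hp.1, hqa, hpb⟩⟩

end Pool.NH23.PR
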