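import Pool.Agent.NH23.PR.Rho

set_option autoImplicit false

namespace Pool.NH23.PR

theorem pow_log_bounds {g M : ℕ} (hg : 2 ≤ g) (hM : 1 ≤ M) :
    g ^ Nat.log g M ≤ M ∧ M < g ^ (Nat.log g M + 1) :=
  ⟨Nat.pow_log_le_self g (by omega), Nat.lt_pow_succ_log_self (by omega) M⟩

theorem two_pow_gt (k : ℕ) : k + 1 ≤ 2 ^ k := Nat.lt_two_pow_self

/-- two numbers with the same `M - log M`, both divisible by `g`, are equal -/
theorem eq_of_sub_log {g M M' : ℕ} (hg : 2 ≤ g) (hM : 1 ≤ M) (hlt : M < M')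
    (h : M + Nat.log g M' = M' + Nat.log g M) : M' = M + 1 ∧ M' = g ^ (Nat.log g M + 1) := by
  obtain ⟨h1, h2⟩ := pow_log_bounds hg hM
  obtain ⟨h3, h4⟩ := pow_log_bounds hg (by omega : 1 ≤ M')
  obtain ⟨e, he⟩ : ∃ e, Nat.log g M' = Nat.log g M + e := ⟨Nat.log g M' - Nat.log g M, by omega⟩
  have hM' : M' = M + e := by omega
  set L := Nat.log g M with hL
  have he1 : e = 1 := by
    by_contra hne
    have he2 : 2 ≤ e := by omega
    obtain ⟨f, rfl⟩ : ∃ f, e = f + 2 := ⟨e - 2, by omega⟩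
    have h5 : g ^ (L + 1) * g ^ (f + 1) ≤ M' := by
      rw [← pow_add]; rw [he] at h3
      rw [show L + 1 + (f + 1) = L + (f + 2) by ring]; exact h3
    have h6 : 2 ^ (f + 1) ≤ g ^ (f + 1) := Nat.pow_le_pow_left hg _
    have h7 : 2 ≤ g ^ (L + 1) := by
      calc 2 ≤ g := hg
        _ = g ^ 1 := (pow_one g).symm
        _ ≤ g ^ (L + 1) := Nat.pow_le_pow_right (by omega) (by omega)
    have h8 := two_pow_gt f
    rw [pow_succ] at h6
    nlinarith
  subst he1
  refine ⟨hM', ?_⟩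
  rw [he] at h3
  omega

/-- uniqueness of `M` for given `Z`, `a` when `P a k` implies `1 ≤ k`, or `P a k` is `a = k` -/
theorem E_uniq {g : ℕ} {P : ℕ → ℕ → Prop} (hg : 2 ≤ g)
    (hP : ∀ a k l, P a k → P a l → k = l ∨ (1 ≤ k ∧ 1 ≤ l)) {Z a M M' : ℕ}
    (h : E g P Z a M) (h' : E g P Z a M') : M = M' := by
  wlog hlt : M < M' with H
  · rcases Nat.lt_trichotomy M M' with h1 | h1 | h1
    · exact absurd h1 hlt
    · exact h1
    · exact (H hg hP h' h h1).symm
  exfalso
  obtain ⟨h1, h2, h3⟩ := h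
  obtain ⟨h1', h2', h3'⟩ := h'
  obtain ⟨e1, e2⟩ := eq_of_sub_log hg h1 hlt (by omega)
  have hv' : 1 ≤ v g M' := by
    rw [← pow_dvd_iff_le_v hg h1', e2]
    exact pow_dvd_pow g (by omega)
  have hv : 1 ≤ v g M := by
    rcases hP _ _ _ h3 h3' with h | h
    · omega
    · exact h.1
  rw [← pow_dvd_iff_le_v hg h1, pow_one] at hv
  rw [← pow_dvd_iff_le_v hg h1', pow_one, e1] at hv'
  have := (Nat.dvd_add_right hv).1 hv'
  have := Nat.le_of_dvd (by omega) this
  omega

/-! ### the relation `a = k` -/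

def PEq (a k : ℕ) : Prop := a = k

theorem v_rho_eq {g : ℕ} (hg : 2 ≤ g) : ∀ N : ℕ, 1 ≤ N → v g (rho g PEq N) = v g N := by
  intro N
  induction N using Nat.strong_induction_on with
  | _ N ih =>
    intro hN
    obtain ⟨d, s, m, hd, hd', hm, rfl⟩ := exists_dec hg hN
    rcases Nat.eq_zero_or_pos m with h0 | h0
    · subst h0
      rw [add_zero, rho_axis hg hd hd']
    · have hps : 1 ≤ g ^ s := Nat.one_le_pow _ _ (by omega)
      have hmlt : m < d * g ^ s + m := by nlinarith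
      rw [v_dec hg h0 hm]
      rcases F_cases PEq hg hd hd' h0 hm with ⟨a, M, h1, h2, h3, -⟩ | ⟨-, h2, -⟩
      · rw [h3, v_axis hg hd hd', ← ih m hmlt h0, ← h2,
          ih M (E_lt hg hd h0 hm h1) h1.1]
        exact h1.2.2
      · rw [h2]
        have h4 := rho_pos PEq hg h0
        have h5 : rho g PEq m < g ^ (s - 1 - Nat.log g m + Nat.log g (rho g PEq m) + 1) := by
          refine lt_of_lt_of_le (Nat.lt_pow_succ_log_self (by omega : 1 < g) _) ?_
          exact Nat.pow_le_pow_right (by omega) (by omega)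
        rw [v_dec hg h4 h5, ih m hmlt h0]

theorem uniq_eq {g : ℕ} (hg : 2 ≤ g) : Uniq g PEq := by
  intro Z a M a' M' h h' hr
  have h1 := v_rho_eq hg M h.1
  have h2 := v_rho_eq hg M' h'.1
  have h3 : a = a' := by
    have e1 : a = v g M := h.2.2
    have e2 : a' = v g M' := h'.2.2
    rw [e1, e2, ← h1, ← h2, hr]
  subst h3
  exact ⟨rfl, E_uniq hg (fun a k l h1 h2 => Or.inl (h1.symm.trans h2)) h h'⟩

/-! ### the relation `a < k` -/

def PLt (a k : ℕ) : Prop := a < k

theorem E_uniq_lt {g : ℕ} (hg : 2 ≤ g) {Z a M M' : ℕ}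
    (h : E g PLt Z a M) (h' : E g PLt Z a M') : M = M' :=
  E_uniq hg (fun a k l h1 h2 => Or.inr ⟨Nat.lt_of_le_of_lt (Nat.zero_le _) h1,
    Nat.lt_of_le_of_lt (Nat.zero_le _) h2⟩) h h'

theorem add_lt_of_dvd {g K m B d : ℕ} (h1 : g ^ K ∣ m) (h2 : g ^ K ∣ B) (h3 : m < B)
    (h4 : d < g ^ K) : m + d < B := by
  obtain ⟨x, rfl⟩ := h1
  obtain ⟨z, rfl⟩ := h2
  have : x < z := lt_of_mul_lt_mul_left h3 (Nat.zero_le _)
  nlinarith

theorem rho_ne {g : ℕ} (hg : 2 ≤ g) : ∀ w : ℕ, 1 ≤ w → ∀ d, 1 ≤ d → d < g ^ v g w →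
    rho g PLt w ≠ rho g PLt (w + d) := by
  intro w
  induction w using Nat.strong_induction_on with
  | _ w ih =>
    intro hw δ hδ hδ'
    obtain ⟨d, s, m, hd, hd', hm, rfl⟩ := exists_dec hg hw
    have hps : 1 ≤ g ^ s := Nat.one_le_pow _ _ (by omega)
    have hbig : ∀ (k r : ℕ), r < g ^ (k + Nat.log g r + 1) := fun k r =>
      lt_of_lt_of_le (Nat.lt_pow_succ_log_self (by omega : 1 < g) r)
        (Nat.pow_le_pow_right (by omega) (by omega))
    have hp0 : ∀ k, 0 < g ^ k := fun k => by positivity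
    rcases Nat.eq_zero_or_pos m with h0 | h0
    · subst h0
      rw [add_zero] at hδ' ⊢
      rw [v_axis hg hd hd'] at hδ'
      rw [rho_axis hg hd hd']
      have hlog : Nat.log g δ < s := Nat.log_lt_of_lt_pow (by omega) hδ'
      rcases F_cases PLt hg hd hd' hδ hδ' with ⟨a, M, h1, h2, h3, -⟩ | ⟨-, h2, -⟩
      · rw [h3]
        have h4 := E_a_le hg h1
        intro h
        have := (dec_inj hg hd hd' (hp0 s) hd hd' (hp0 a) (by simpa using h)).2.1
        omega
      · rw [h2]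
        intro h
        have h5 := rho_pos PLt hg hδ
        have := (dec_inj hg hd hd' (hp0 s) hd hd' (hbig _ _) (by simpa using h)).2.2
        omega
    · have hmlt : m < d * g ^ s + m := by nlinarith
      have hvm := v_dec (d := d) hg h0 hm
      rw [hvm] at hδ'
      have hvl := v_le_log hg h0
      have hlogs : Nat.log g m < s := Nat.log_lt_of_lt_pow (by omega) hm
      have hdv := pow_v_dvd hg h0
      have hm' : m + δ < g ^ s := add_lt_of_dvd hdv (pow_dvd_pow g (by omega)) hm hδ'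
      have hl' : Nat.log g (m + δ) = Nat.log g m := by
        obtain ⟨k1, k2⟩ := pow_log_bounds hg h0
        apply Nat.log_eq_of_pow_le_of_lt_pow
        · omega
        · exact add_lt_of_dvd hdv (pow_dvd_pow g (by omega)) k2 hδ'
      have hne := ih m hmlt h0 δ hδ hδ'
      rw [add_assoc]
      have c1 := F_cases PLt hg hd hd' h0 hm
      have c2 := F_cases PLt hg hd hd' (by omega : 1 ≤ m + δ) hm'
      rw [hl'] at c2
      rcases c1 with ⟨a, M, h1, h2, h3, -⟩ | ⟨-, h2, -⟩ <;>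
        rcases c2 with ⟨a', M', k1, k2, k3, -⟩ | ⟨-, k2, -⟩
      · rw [h3, k3]
        intro h
        have h4 := (dec_inj hg hd hd' (hp0 a) hd hd' (hp0 a') (by simpa using h)).2.1
        subst h4
        have h5 := E_uniq_lt hg h1 k1
        subst h5
        exact hne (h2.symm.trans k2)
      · rw [h3, k2]
        intro h
        have h5 := rho_pos PLt hg (by omega : 1 ≤ m + δ)
        have := (dec_inj hg hd hd' (hp0 a) hd hd' (hbig _ _) (by simpa using h)).2.2
        omega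
      · rw [h2, k3]
        intro h
        have h5 := rho_pos PLt hg h0
        have := (dec_inj hg hd hd' (hbig _ _) hd hd' (hp0 a') (by simpa using h)).2.2
        omega
      · rw [h2, k2]
        intro h
        exact hne (dec_inj hg hd hd' (hbig _ _) hd hd' (hbig _ _) h).2.2

theorem uniq_lt_aux {g : ℕ} (hg : 2 ≤ g) {Z a M a' M' : ℕ} (haa : a < a')
    (h : E g PLt Z a M) (h' : E g PLt Z a' M') (hr : rho g PLt M = rho g PLt M') : False := by
  obtain ⟨h1, h2, h3⟩ := h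
  obtain ⟨k1, k2, k3⟩ := h'
  have k3' : a' < v g M' := k3
  obtain ⟨p1, p2⟩ := pow_log_bounds hg h1
  obtain ⟨q1, q2⟩ := pow_log_bounds hg k1
  have hvl := v_le_log hg k1
  have hdv := pow_v_dvd hg k1
  -- `M' + a' < g^(log M' + 1)`
  have hlt : a' < g ^ v g M' := lt_trans k3' (lt_pow hg _)
  have hfar : M' + (g ^ v g M' - 1) < g ^ (Nat.log g M' + 1) :=
    add_lt_of_dvd hdv (pow_dvd_pow g (by omega)) q2 (by omega)
  -- compare logs
  have hML : Nat.log g M' ≤ Nat.log g M := by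
    by_contra hcon
    push Not at hcon
    obtain ⟨e, he⟩ : ∃ e, Nat.log g M' = Nat.log g M + 1 + e :=
      ⟨Nat.log g M' - Nat.log g M - 1, by omega⟩
    have r1 : g ^ (Nat.log g M + 1) * g ^ e ≤ M' := by rw [← pow_add, ← he]; exact q1
    have r2 : e + 1 ≤ g ^ e := lt_pow hg e
    have r4 : g ^ (Nat.log g M + 1) * (e + 1) ≤ M' := le_trans (Nat.mul_le_mul_left _ r2) r1
    have r5 : g ^ (Nat.log g M + 1) * (e + 1) =
        g ^ (Nat.log g M + 1) * e + g ^ (Nat.log g M + 1) := by ring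
    have r6 : e ≤ g ^ (Nat.log g M + 1) * e := Nat.le_mul_of_pos_left _ (by positivity)
    omega
  rcases Nat.eq_or_lt_of_le hML with he | hlt2
  · have hM : M = M' + (a' - a) := by omega
    have := rho_ne hg M' k1 (a' - a) (by omega) (by omega)
    rw [← hM] at this
    exact this hr.symm
  · -- M is at least g^(log M' + 1)
    obtain ⟨e, he⟩ : ∃ e, Nat.log g M = Nat.log g M' + 1 + e := ⟨Nat.log g M - Nat.log g M' - 1, by omega⟩
    have r1 : g ^ (Nat.log g M' + 1) * g ^ e ≤ M := by rw [← pow_add, ← he]; exact p1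
    have r2 : e + 1 ≤ g ^ e := lt_pow hg e
    have r3 : a' + 1 < g ^ v g M' := by
      calc a' + 1 ≤ v g M' := k3'
        _ < g ^ v g M' := lt_pow hg _
    have r4 : g ^ (Nat.log g M' + 1) * (e + 1) ≤ M := le_trans (Nat.mul_le_mul_left _ r2) r1
    have r5 : g ^ (Nat.log g M' + 1) * (e + 1) = g ^ (Nat.log g M' + 1) * e + g ^ (Nat.log g M' + 1) := by
      ring
    have r6 : e ≤ g ^ (Nat.log g M' + 1) * e := Nat.le_mul_of_pos_left _ (by positivity)
    omega

theorem uniq_lt {g : ℕ} (hg : 2 ≤ g) : Uniq g PLt := by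
  intro Z a M a' M' h h' hr
  rcases Nat.lt_trichotomy a a' with h1 | h1 | h1
  · exact (uniq_lt_aux hg h1 h h' hr).elim
  · subst h1
    exact ⟨rfl, E_uniq_lt hg h h'⟩
  · exact (uniq_lt_aux hg h1 h' h hr.symm).elim

end Pool.NH23.PR
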